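import Pool.Agent.helper52.OSRel

/-!
The main theorem: for each `n ≥ 4` there is an orderable soluble group of derived length `n` with
exactly one proper nontrivial normal relatively convex subgroup.
-/

namespace Pool.Agent.helper52.OS

open Finset

/-! ### linear orders from cones -/

section order
variable {Q : Type*} [Group Q]

/-- the linear order attached to a cone -/
@[reducible]
noncomputable def coneOrder (C : Set Q) (hm : ∀ x ∈ C, ∀ y ∈ C, x * y ∈ C) (h1 : (1 : Q) ∉ C)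
    (ht : ∀ x, x ≠ 1 → x ∈ C ∨ x⁻¹ ∈ C) : LinearOrder Q where
  le x y := x = y ∨ x⁻¹ * y ∈ C
  le_refl x := Or.inl rfl
  le_trans := by
    rintro x y z (rfl | hxy) (rfl | hyz)
    · left; rfl
    · right; exact hyz
    · right; exact hxy
    · right
      have := hm _ hxy _ hyz
      have e : x⁻¹ * y * (y⁻¹ * z) = x⁻¹ * z := by group
      rwa [e] at this
  le_antisymm := by
    rintro x y (rfl | hxy) (h | hyx)
    · rfl
    · rfl
    · exact h.symm
    · exfalso
      have := hm _ hxy _ hyx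
      have e : x⁻¹ * y * (y⁻¹ * x) = 1 := by group
      rw [e] at this
      exact h1 this
  le_total := by
    intro x y
    by_cases h : x = y
    · left; left; exact h
    · have h2 : x⁻¹ * y ≠ 1 := fun h3 => h (inv_mul_eq_one.1 h3)
      rcases ht _ h2 with h3 | h3
      · left; right; exact h3
      · right; right
        have e : (x⁻¹ * y)⁻¹ = y⁻¹ * x := by group
        rwa [e] at h3
  toDecidableLE := Classical.decRel _

lemma coneOrder_le {C : Set Q} {hm : ∀ x ∈ C, ∀ y ∈ C, x * y ∈ C} {h1 : (1 : Q) ∉ C}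
    {ht : ∀ x, x ≠ 1 → x ∈ C ∨ x⁻¹ ∈ C} {x y : Q} :
    (coneOrder C hm h1 ht).le x y ↔ x = y ∨ x⁻¹ * y ∈ C := Iff.rfl

lemma coneOrder_bi {C : Set Q} {hm : ∀ x ∈ C, ∀ y ∈ C, x * y ∈ C} {h1 : (1 : Q) ∉ C}
    {ht : ∀ x, x ≠ 1 → x ∈ C ∨ x⁻¹ ∈ C} (hcj : ∀ x ∈ C, ∀ g, g * x * g⁻¹ ∈ C) (a b c : Q)
    (hab : (coneOrder C hm h1 ht).le a b) :
    (coneOrder C hm h1 ht).le (c * a) (c * b) ∧ (coneOrder C hm h1 ht).le (a * c) (b * c) := by
  rw [coneOrder_le] at hab
  rw [coneOrder_le, coneOrder_le]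
  rcases hab with rfl | hab
  · exact ⟨Or.inl rfl, Or.inl rfl⟩
  · refine ⟨Or.inr ?_, Or.inr ?_⟩
    · have e : (c * a)⁻¹ * (c * b) = a⁻¹ * b := by group
      rwa [e]
    · have := hcj _ hab c⁻¹
      have e : (a * c)⁻¹ * (b * c) = c⁻¹ * (a⁻¹ * b) * c⁻¹⁻¹ := by group
      rwa [e]

end order

/-- bi-invariance of a linear order -/
def BiInv {Q : Type*} [Group Q] (o : LinearOrder Q) : Prop :=
  ∀ a b c : Q, o.le a b → o.le (c * a) (c * b) ∧ o.le (a * c) (b * c)

/-- relative convexity -/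
def RConv {Q : Type*} [Group Q] (H : Subgroup Q) : Prop :=
  ∃ o : LinearOrder Q, BiInv o ∧ ∀ h₁ ∈ H, ∀ h₂ ∈ H, ∀ g, o.le h₁ g → o.le g h₂ → g ∈ H

/-- a normal subgroup `M` with a cone below `LL` gives a bi-invariant order on the quotient for which
`LL` is convex -/
lemma RConv_LL {M : Subgroup F} [M.Normal] (hM : Ordb M) (hle : M ≤ LL) :
    RConv (LL.map (QuotientGroup.mk' M)) := by
  obtain ⟨P, h1, h2, h3, h4⟩ := hM
  set π := QuotientGroup.mk' M with hπ
  have hker : ∀ x y, π x = π y → x⁻¹ * y ∈ M := by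
    intro x y h
    exact QuotientGroup.eq.1 h
  have hdg : ∀ x y, π x = π y → dg x = dg y := by
    intro x y h
    have := mem_LL.1 (hle (hker x y h))
    simp at this
    omega
  set T : Set F := {w | 0 < dg w ∨ (dg w = 0 ∧ w ∈ P)} with hT
  set C : Set (F ⧸ M) := π '' T with hC
  have hm : ∀ x ∈ C, ∀ y ∈ C, x * y ∈ C := by
    rintro _ ⟨x, hx, rfl⟩ _ ⟨y, hy, rfl⟩
    refine ⟨x * y, ?_, map_mul _ _ _⟩
    rcases hx with hx | ⟨hx, hx'⟩ <;> rcases hy with hy | ⟨hy, hy'⟩
    · left; rw [dg_mul]; omega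
    · left; rw [dg_mul]; omega
    · left; rw [dg_mul]; omega
    · right; exact ⟨by rw [dg_mul]; omega, h1 _ hx' _ hy'⟩
  have hone : (1 : F ⧸ M) ∉ C := by
    rintro ⟨x, hx, hx1⟩
    have hxM : x ∈ M := (QuotientGroup.eq_one_iff x).1 hx1
    rcases hx with hx | ⟨hx, hx'⟩
    · have := mem_LL.1 (hle hxM)
      omega
    · exact h4 _ hx' hxM
  have ht : ∀ x, x ≠ 1 → x ∈ C ∨ x⁻¹ ∈ C := by
    intro q hq
    obtain ⟨x, rfl⟩ := QuotientGroup.mk'_surjective M q
    have hxM : x ∉ M := fun h => hq ((QuotientGroup.eq_one_iff x).2 h)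
    rcases lt_trichotomy (dg x) 0 with h | h | h
    · right; exact ⟨x⁻¹, Or.inl (by simpa using h), map_inv _ _⟩
    · rcases h3 _ hxM with h5 | h5
      · left; exact ⟨x, Or.inr ⟨h, h5⟩, rfl⟩
      · right; exact ⟨x⁻¹, Or.inr ⟨by simpa using h, h5⟩, map_inv _ _⟩
    · left; exact ⟨x, Or.inl h, rfl⟩
  have hcj : ∀ x ∈ C, ∀ g, g * x * g⁻¹ ∈ C := by
    rintro _ ⟨x, hx, rfl⟩ g
    obtain ⟨g, rfl⟩ := QuotientGroup.mk'_surjective M g
    refine ⟨g * x * g⁻¹, ?_, by simp [hπ]⟩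
    rcases hx with hx | ⟨hx, hx'⟩
    · left; simpa using hx
    · right; exact ⟨by simpa using hx, h2 _ hx' g⟩
  refine ⟨coneOrder C hm hone ht, fun a b c hab => coneOrder_bi hcj a b c hab, ?_⟩
  have hC0 : ∀ x, π x ∈ C → 0 ≤ dg x := by
    rintro x ⟨y, hy, hyx⟩
    have := hdg _ _ hyx
    rcases hy with hy | ⟨hy, hy'⟩ <;> omega
  rintro _ ⟨x, hx, rfl⟩ _ ⟨y, hy, rfl⟩ g h5 h6
  obtain ⟨g, rfl⟩ := QuotientGroup.mk'_surjective M g
  rw [coneOrder_le] at h5 h6
  refine ⟨g, ?_, rfl⟩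
  have hx0 := mem_LL.1 hx
  have hy0 := mem_LL.1 hy
  show g ∈ LL
  rw [mem_LL]
  have h7 : 0 ≤ dg g := by
    rcases h5 with h5 | h5
    · have := hdg _ _ h5; omega
    · rw [← map_inv, ← map_mul] at h5
      have := hC0 _ h5
      simp only [dg_mul, dg_inv] at this
      omega
  have h8 : dg g ≤ 0 := by
    rcases h6 with h6 | h6
    · have := hdg _ _ h6; omega
    · rw [← map_inv, ← map_mul] at h6
      have := hC0 _ h6
      simp only [dg_mul, dg_inv] at this
      omega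
  omega

/-- the preimage of a normal relatively convex subgroup is the kernel of an orderable quotient -/
lemma Ordb_of_RConv {M : Subgroup F} [M.Normal] {H : Subgroup (F ⧸ M)} (hn : H.Normal)
    (h : RConv H) : Ordb (H.comap (QuotientGroup.mk' M)) := by
  obtain ⟨o, hbi, hconv⟩ := h
  set π := QuotientGroup.mk' M with hπ
  have hlt : ∀ a b : F ⧸ M, o.le a b → a ≠ b → ¬ o.le b a := fun a b h1 h2 h3 =>
    h2 (o.le_antisymm a b h1 h3)
  refine ⟨{w | o.le 1 (π w) ∧ π w ∉ H}, ?_, ?_, ?_, ?_⟩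
  · rintro x ⟨hx, hx'⟩ y ⟨hy, hy'⟩
    have h1 : o.le (π x) (π (x * y)) := by
      have := (hbi _ _ (π x) hy).1
      rwa [mul_one, ← map_mul] at this
    refine ⟨o.le_trans _ _ _ hx h1, fun hcon => hx' ?_⟩
    exact hconv 1 H.one_mem _ hcon _ hx h1
  · rintro x ⟨hx, hx'⟩ g
    refine ⟨?_, fun hcon => hx' ?_⟩
    · have h1 := (hbi _ _ (π g) hx).1
      have h2 := (hbi _ _ (π g)⁻¹ h1).2
      rw [mul_one, mul_inv_cancel] at h2
      simpa using h2
    · have := hn.conj_mem _ hcon (π g)⁻¹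
      have e : (π g)⁻¹ * π (g * x * g⁻¹) * (π g)⁻¹⁻¹ = π x := by
        rw [map_mul, map_mul, map_inv]; group
      rwa [e] at this
  · intro x hx
    rw [Subgroup.mem_comap] at hx
    rcases o.le_total 1 (π x) with h1 | h1
    · left; exact ⟨h1, hx⟩
    · right
      refine ⟨?_, fun hcon => hx ?_⟩
      · have := (hbi _ _ (π x)⁻¹ h1).1
        rw [inv_mul_cancel, mul_one] at this
        simpa using this
      · have := H.inv_mem hcon
        simpa using this
  · rintro x ⟨hx, hx'⟩ hcon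
    exact hx' hcon

theorem main (k : ℕ) : ∃ (G : Type) (_ : Group G), (∃ o : LinearOrder G, BiInv o) ∧
    derivedSeries G (k + 4) = ⊥ ∧ derivedSeries G (k + 3) ≠ ⊥ ∧
    ∃! H : Subgroup G, H ≠ ⊥ ∧ H ≠ ⊤ ∧ H.Normal ∧ RConv H := by
  obtain ⟨χ, c, hc, hpos, hspec, hcd, hcp, hcK, hχ, hχ2⟩ := exists_data k
  have hK := KK_Lv (k + 1)
  have h1K := gen_one_mem k
  set K := KK (k + 1) with hKdef
  set R0 := RR (Knext (dl K χ)) with hR0
  have hRO : Ordb R0 := Ordb_final hc hpos hspec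
  have hb0 : b0 ∉ R0 := b0_not_mem hc hpos
  obtain ⟨M, hRM, hMO, hbM, hmax⟩ := exists_max hRO hb0
  have hMn : M.Normal := hMO.normal
  -- relations
  have sa : Sc K χ 1 ga := Sc_ga h1K
  have sb : Sc K χ (1 + χ (gen 1)) b0 := Sc_b0 hK hc h1K
  set y : F := c * ga * c⁻¹ * ga⁻¹ with hy
  have sy : Sc K χ (χ c - 1) y := by
    have := Sc_mul hK hc (Sc_conj hK hc sa hcp hcK) (Sc_inv hK hc sa)
    have e : χ c * 1 + -1 = χ c - 1 := by ring
    rwa [e] at this
  set z : F := c * y * c⁻¹ * y⁻¹ with hz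
  have sz : Sc K χ (1 + χ (gen 1)) z := by
    have := Sc_mul hK hc (Sc_conj hK hc sy hcp hcK) (Sc_inv hK hc sy)
    have e : χ c * (χ c - 1) + -(χ c - 1) = 1 + χ (gen 1) := by rw [hχ]; ring
    rwa [e] at this
  have hbz : b0 * z⁻¹ ∈ R0 := Sc_eq hK hc sb sz
  set p : F := c * b0 * c⁻¹ * b0⁻¹ with hp
  have sp : Sc K χ ((1 + χ (gen 1)) * (χ c - 1)) p := by
    have := Sc_mul hK hc (Sc_conj hK hc sb hcp hcK) (Sc_inv hK hc sb)
    have e : χ c * (1 + χ (gen 1)) + -(1 + χ (gen 1)) = (1 + χ (gen 1)) * (χ c - 1) := by ring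
    rwa [e] at this
  have syq : Sc K χ ((1 + χ (gen 1)) * (χ c - 1)) (y * (gen 1 * y * (gen 1)⁻¹)) := by
    have := Sc_mul hK hc sy (Sc_conj hK hc sy (gen_mem_Lge le_rfl) h1K)
    have e : χ c - 1 + χ (gen 1) * (χ c - 1) = (1 + χ (gen 1)) * (χ c - 1) := by ring
    rwa [e] at this
  have hpq : (y * (gen 1 * y * (gen 1)⁻¹)) * p⁻¹ ∈ R0 := Sc_eq hK hc syq sp
  -- `M` lies in `LL`
  have hMLL : M ≤ LL := by
    intro x hx
    rw [mem_LL]
    by_contra hne
    set r := dg x with hr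
    set g : F := x * (gu ^ r)⁻¹ with hg
    have hg0 : dg g = 0 := by rw [hg]; simp; omega
    obtain ⟨m, hm⟩ := exists_shift k hg0
    have h1 := hRM (comm_b0 hc hm)
    set π := QuotientGroup.mk' M with hπ
    have hone : ∀ w, π w = 1 ↔ w ∈ M := fun w => QuotientGroup.eq_one_iff w
    have hπx : π x = 1 := (hone x).2 hx
    have h2 : gu ^ (-r) * b0 * (gu ^ (-r))⁻¹ * b0⁻¹ ∈ M := by
      rw [← hone] at h1 ⊢
      rw [← h1]
      simp only [map_mul, map_inv, map_zpow, hg, hπx]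
      group
    have h3 := hMO.comm_of_zpow (by omega : -r ≠ 0) h2
    have hc0 : dg c = 0 := hK.deg0 _ hcK
    obtain ⟨m', hm'⟩ := exists_shift k hc0
    have h4 := hRM (comm_b0 hc hm')
    have hpM : p ∈ M := by
      rw [← hone] at h3 h4 ⊢
      have c1 : Commute (π gu) (π b0) := by
        simp only [map_mul, map_inv] at h3
        exact mul_inv_eq_iff_eq_mul.1 (mul_inv_eq_one.1 h3)
      have c2 : Commute (π gu ^ m' * π c * (π gu ^ m')⁻¹) (π b0) := by
        simp only [map_mul, map_inv, map_zpow] at h4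
        exact mul_inv_eq_iff_eq_mul.1 (mul_inv_eq_one.1 h4)
      have c3 : Commute (π c) (π b0) := by
        have e : π c = (π gu ^ m')⁻¹ * (π gu ^ m' * π c * (π gu ^ m')⁻¹) * (π gu ^ m') := by
          group
        rw [e]
        exact ((c1.zpow_left m').inv_left.mul_left c2).mul_left (c1.zpow_left m')
      rw [hp]
      simp only [map_mul, map_inv]
      rw [c3.eq]
      group
    have h5 : y * (gen 1 * y * (gen 1)⁻¹) ∈ M := by
      have := M.mul_mem (hRM hpq) hpM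
      rwa [inv_mul_cancel_right] at this
    have hyM : y ∈ M := hMO.of_conj_mul h5
    have hzM : z ∈ M := M.mul_mem (hMn.conj_mem _ hyM c) (M.inv_mem hyM)
    apply hbM
    have := M.mul_mem (hRM hbz) hzM
    rwa [inv_mul_cancel_right] at this
  -- the derived series
  have hsurj : Function.Surjective (QuotientGroup.mk' M) := QuotientGroup.mk'_surjective M
  have hds : ∀ n, derivedSeries (F ⧸ M) n = (derivedSeries F n).map (QuotientGroup.mk' M) :=
    fun n => (map_derivedSeries_eq hsurj n).symm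
  have hd4 : derivedSeries F (k + 4) ≤ M := by
    rw [show k + 4 = (k + 1 + 2) + 1 by ring, derivedSeries_succ]
    exact ((Subgroup.commutator_mono (derived_le_RR (k + 1)) (derived_le_RR (k + 1))).trans
      (comm_RR_le hK hc)).trans hRM
  have hzd : z ∈ derivedSeries F (k + 3) := by
    have hyd : y ∈ derivedSeries F (k + 2) := by
      have h1 := (derivedSeries_normal F (k + 2)).conj_mem _
        ((derivedSeries F (k + 2)).inv_mem hcd) ga
      have := (derivedSeries F (k + 2)).mul_mem hcd h1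
      have e : c * (ga * c⁻¹ * ga⁻¹) = y := by rw [hy]; group
      rwa [e] at this
    exact comm_mem_derived hcd hyd
  have hzM : z ∉ M := by
    intro hzM
    apply hbM
    have := M.mul_mem (hRM hbz) hzM
    rwa [inv_mul_cancel_right] at this
  have hbLL : b0 ∈ LL := mem_LL.2 dg_b0
  have hcomap : ∀ N : Subgroup F, M ≤ N →
      (N.map (QuotientGroup.mk' M)).comap (QuotientGroup.mk' M) = N := by
    intro N hN
    rw [Subgroup.comap_map_eq, QuotientGroup.ker_mk', sup_eq_left]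
    exact hN
  refine ⟨F ⧸ M, inferInstance, ?_, ?_, ?_, LL.map (QuotientGroup.mk' M), ⟨?_, ?_, ?_, ?_⟩, ?_⟩
  · obtain ⟨o, ho, _⟩ := RConv_LL hMO hMLL
    exact ⟨o, ho⟩
  · rw [hds, Subgroup.map_eq_bot_iff, QuotientGroup.ker_mk']
    exact hd4
  · rw [hds, Ne, Subgroup.map_eq_bot_iff, QuotientGroup.ker_mk']
    exact fun h => hzM (h hzd)
  · rw [Ne, Subgroup.map_eq_bot_iff, QuotientGroup.ker_mk']
    exact fun h => hbM (h hbLL)
  · intro h
    have h1 := hcomap LL hMLL
    rw [h, Subgroup.comap_top] at h1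
    have : gu ∈ LL := h1 ▸ Subgroup.mem_top _
    rw [mem_LL] at this
    simp at this
  · exact Subgroup.Normal.map (MonoidHom.normal_ker _) _ hsurj
  · exact RConv_LL hMO hMLL
  · rintro H ⟨hH1, hH2, hHn, hHc⟩
    have h1 := Ordb_of_RConv hHn hHc
    set H' := H.comap (QuotientGroup.mk' M) with hH'
    have h2 : M ≤ H' := by
      intro x hx
      rw [hH', Subgroup.mem_comap]
      have : QuotientGroup.mk' M x = 1 := (QuotientGroup.eq_one_iff x).2 hx
      rw [this]
      exact H.one_mem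
    have h3 : b0 ∈ H' := by
      by_contra hcon
      have h4 := hmax H' h1 hcon h2
      apply hH1
      rw [eq_bot_iff]
      intro q hq
      obtain ⟨x, rfl⟩ := hsurj q
      have : x ∈ H' := hq
      rw [h4] at this
      exact (QuotientGroup.eq_one_iff x).2 this
    have h4 : H' ≠ ⊤ := by
      intro hT
      apply hH2
      rw [eq_top_iff]
      intro q _
      obtain ⟨x, rfl⟩ := hsurj q
      have : x ∈ H' := hT ▸ Subgroup.mem_top _
      exact this
    have h5 := eq_LL_of_b0 h1 h3 h4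
    rw [← h5, hH', Subgroup.map_comap_eq_self_of_surjective hsurj]

end Pool.Agent.helper52.OS
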