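import Mathlib

/-!
Fox calculus on the free group of rank two, used for the construction of orderable soluble groups
with exactly one proper nontrivial normal relatively convex subgroup.
-/

namespace Pool.Agent.helper52.OS

open Finset

/-- The free group of rank two. -/
abbrev F : Type := FreeGroup (Fin 2)

/-- first generator -/
def ga : F := FreeGroup.of 0
/-- second generator -/
def gu : F := FreeGroup.of 1

/-- exponent sum of the second generator, as a homomorphism -/
def degHom : F →* Multiplicative ℤ := FreeGroup.lift ![1, Multiplicative.ofAdd 1]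

/-- exponent sum of the second generator -/
def dg (w : F) : ℤ := Multiplicative.toAdd (degHom w)

@[simp] lemma dg_one : dg 1 = 0 := by simp [dg]
@[simp] lemma dg_mul (v w : F) : dg (v * w) = dg v + dg w := by simp [dg]
@[simp] lemma dg_inv (v : F) : dg v⁻¹ = - dg v := by simp [dg]
@[simp] lemma dg_pow (v : F) (n : ℕ) : dg (v ^ n) = n * dg v := by simp [dg]
@[simp] lemma dg_zpow (v : F) (n : ℤ) : dg (v ^ n) = n * dg v := by simp [dg]
@[simp] lemma dg_ga : dg ga = 0 := by simp [dg, degHom, ga]
@[simp] lemma dg_gu : dg gu = 1 := by simp [dg, degHom, gu]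

/-- left translation on finitely supported functions -/
noncomputable def trHom : F →* MulAut (Multiplicative (F →₀ ℤ)) where
  toFun w := AddEquiv.toMultiplicative (Finsupp.domCongr (Equiv.mulLeft w))
  map_one' := by
    apply MulEquiv.ext
    intro x
    apply Multiplicative.toAdd.injective
    ext h
    simp
    rfl
  map_mul' v w := by
    apply MulEquiv.ext
    intro x
    apply Multiplicative.toAdd.injective
    ext h
    simp
    rfl

/-- the Magnus type homomorphism -/
noncomputable def Phi : F →* (Multiplicative (F →₀ ℤ)) ⋊[trHom] F :=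
  FreeGroup.lift ![⟨Multiplicative.ofAdd (Finsupp.single 1 1), ga⟩, ⟨1, gu⟩]

lemma Phi_right (w : F) : (Phi w).right = w := by
  have h : (SemidirectProduct.rightHom (φ := trHom)).comp Phi = MonoidHom.id F := by
    apply FreeGroup.ext_hom
    intro i
    fin_cases i
    · simp [Phi, ga]
    · simp [Phi, gu]
  exact DFunLike.congr_fun h w

/-- Fox derivative with respect to the first generator -/
noncomputable def fox (w : F) : F →₀ ℤ := Multiplicative.toAdd (Phi w).left

lemma fox_mul (v w : F) : fox (v * w) = fox v + Finsupp.domCongr (Equiv.mulLeft v) (fox w) := by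
  unfold fox
  rw [map_mul, SemidirectProduct.mul_left, Phi_right]
  rfl

@[simp] lemma fox_ga : fox ga = Finsupp.single 1 1 := by
  simp [fox, Phi, ga]

@[simp] lemma fox_gu : fox gu = 0 := by
  simp [fox, Phi, gu]

@[simp] lemma fox_one : fox 1 = 0 := by
  simp [fox]

lemma fox_mul_apply (v w g : F) : fox (v * w) g = fox v g + fox w (v⁻¹ * g) := by
  rw [fox_mul]
  simp

lemma fox_inv_apply (v g : F) : fox v⁻¹ g = - fox v (v * g) := by
  have h := fox_mul_apply v v⁻¹ (v * g)
  simp at h
  linarith

section D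
variable {R : Type*} [AddCommGroup R]

/-- The crossed homomorphism with values in functions, attached to a function `δ`. -/
noncomputable def D (δ : F → R) (w h : F) : R := (fox w).sum (fun g n => n • δ (g⁻¹ * h))

lemma D_mul (δ : F → R) (v w h : F) : D δ (v * w) h = D δ v h + D δ w (v⁻¹ * h) := by
  unfold D
  rw [fox_mul, Finsupp.sum_add_index']
  · congr 1
    rw [Finsupp.domCongr_apply, Finsupp.equivMapDomain_eq_mapDomain, Finsupp.sum_mapDomain_index]
    · apply Finsupp.sum_congr
      intro g _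
      simp [mul_assoc]
    · simp
    · intros; rw [add_smul]
  · simp
  · intros; rw [add_smul]

@[simp] lemma D_one (δ : F → R) (h : F) : D δ 1 h = 0 := by simp [D]

@[simp] lemma D_ga (δ : F → R) (h : F) : D δ ga h = δ h := by
  simp [D]

@[simp] lemma D_gu (δ : F → R) (h : F) : D δ gu h = 0 := by simp [D]

lemma D_inv (δ : F → R) (v h : F) : D δ v⁻¹ h = - D δ v (v * h) := by
  have h1 := D_mul δ v v⁻¹ (v * h)
  simp at h1
  rw [eq_neg_iff_add_eq_zero, add_comm]
  exact h1.symm

@[simp] lemma D_gu_inv (δ : F → R) (h : F) : D δ gu⁻¹ h = 0 := by simp [D_inv]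

lemma D_gu_pow (δ : F → R) (n : ℕ) (h : F) : D δ (gu ^ n) h = 0 := by
  induction n generalizing h with
  | zero => simp
  | succ n ih => rw [pow_succ, D_mul, ih]; simp

lemma D_gu_zpow (δ : F → R) (n : ℤ) (h : F) : D δ (gu ^ n) h = 0 := by
  obtain ⟨m, rfl | rfl⟩ := n.eq_nat_or_neg
  · simpa using D_gu_pow δ m h
  · rw [zpow_neg, D_inv]; simpa using D_gu_pow δ m _

/-- conjugation by a power of `u` shifts. -/
lemma D_conj_gu (δ : F → R) (n : ℤ) (w h : F) :
    D δ (gu ^ n * w * (gu ^ n)⁻¹) h = D δ w ((gu ^ n)⁻¹ * h) := by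
  rw [D_mul, D_mul, D_gu_zpow, ← zpow_neg, D_gu_zpow]
  simp

lemma D_conj (δ : F → R) (g w h : F) :
    D δ (g * w * g⁻¹) h = D δ g h + D δ w (g⁻¹ * h) - D δ g ((g * w * g⁻¹)⁻¹ * h) := by
  rw [D_mul, D_mul, D_inv]
  have : g * ((g * w)⁻¹ * h) = (g * w * g⁻¹)⁻¹ * h := by group
  rw [this]
  abel

lemma D_comm (δ : F → R) (g w h : F) :
    D δ (g * w * g⁻¹ * w⁻¹) h = D δ g h + D δ w (g⁻¹ * h) - D δ g ((g * w * g⁻¹)⁻¹ * h)
      - D δ w ((g * w * g⁻¹ * w⁻¹)⁻¹ * h) := by
  rw [D_mul, D_conj, D_inv]
  have : w * ((g * w * g⁻¹)⁻¹ * h) = (g * w * g⁻¹ * w⁻¹)⁻¹ * h := by group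
  rw [this]
  abel

/-- support statement -/
lemma exists_of_D_ne_zero (δ : F → R) (w h : F) (hne : D δ w h ≠ 0) :
    ∃ g ∈ (fox w).support, δ (g⁻¹ * h) ≠ 0 := by
  by_contra hcon
  push Not at hcon
  apply hne
  unfold D
  rw [Finsupp.sum]
  apply Finset.sum_eq_zero
  intro g hg
  rw [hcon g hg, smul_zero]

end D

end Pool.Agent.helper52.OS
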