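import Pool.Agent.helper52.OSWords

/-!
The real character used for the bottom layer.
-/

namespace Pool.Agent.helper52.OS

open Finset Polynomial

lemma exists_c (k : ℕ) : ∃ c hs : F, c ∈ derivedSeries F (k + 2) ∧ c ∈ Lge 1 ∧ c ∈ KK (k + 1) ∧
    dg hs = 1 ∧ D (dl (KK k) th) c hs ≠ 0 ∧ D (dl (KK k) th) c gu = 0 := by
  obtain ⟨w, hwj, hwp, hwK, h1, hh1, hne1⟩ := SS_all k (k + 2) le_rfl
  have hex : ∃ j : ℕ, D (dl (KK k) th) w (gu * gen (j + 2)) = 0 := by
    by_contra hcon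
    push Not at hcon
    have hex2 : ∀ j : ℕ, ∃ q : (fox w).support, (q : F)⁻¹ * (gu * gen (j + 2)) ∈ KK k := by
      intro j
      obtain ⟨q, hq, hq'⟩ := exists_of_D_ne_zero _ _ _ (hcon j)
      exact ⟨⟨q, hq⟩, dl_ne_zero hq'⟩
    choose q hq using hex2
    obtain ⟨j, j', hjj, hqq⟩ := Finite.exists_ne_map_eq_of_infinite q
    have h3 := (KK k).mul_mem ((KK k).inv_mem (hq j)) (hq j')
    rw [hqq] at h3
    have h4 : (gen (j + 2))⁻¹ * gen (j' + 2) ∈ KK 0 := by
      have e : ((q j' : F)⁻¹ * (gu * gen (j + 2)))⁻¹ * ((q j' : F)⁻¹ * (gu * gen (j' + 2)))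
          = (gen (j + 2))⁻¹ * gen (j' + 2) := by group
      rw [e] at h3
      exact KK_le_zero k h3
    refine not_mem_KK_zero (gu ^ ((j' : ℤ) + 2)) (by simp; omega) ?_ h4
    rw [D_mul, D_inv, D_gen_LL, D_gen_LL]
    have : (j' : ℤ) + 2 ≠ (j : ℤ) + 2 := by
      intro h; apply hjj; omega
    simp [this]
  obtain ⟨j, hj⟩ := hex
  set γ : F := (gen (j + 3))⁻¹ with hγ
  have hγ0 : dg γ = 0 := by simp [hγ]
  have hγp : γ ∈ Lge 1 := Subgroup.inv_mem _ (gen_mem_Lge (by omega))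
  have hcK : γ * w * γ⁻¹ ∈ KK (k + 1) := (KK_Lv (k + 1)).norm γ hγ0 w hwK
  have hD : ∀ h, dg h = 1 → D (dl (KK k) th) (γ * w * γ⁻¹) h = D (dl (KK k) th) w (γ⁻¹ * h) := by
    intro h hh
    rw [D_conj, D_triv (KK_Lv k) (KK_Ch k) (inN_one.2 (KK_succ_le k hcK)) (by omega)]
    abel
  refine ⟨γ * w * γ⁻¹, γ * h1, (derivedSeries_normal F _).conj_mem w hwj γ, ?_, hcK, ?_, ?_, ?_⟩
  · exact Subgroup.mul_mem _ (Subgroup.mul_mem _ hγp hwp) (Subgroup.inv_mem _ hγp)
  · simp [hγ0, hh1]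
  · rw [hD _ (by simp [hγ0, hh1])]
    simpa using hne1
  · rw [hD _ (by simp), ← hj]
    congr 1
    have := gen_conj (j + 2) 1
    have e2 : (1 + ((j : ℤ) + 2) : ℤ) = j + 3 := by ring
    rw [e2] at this
    rw [hγ, ← this]
    group

lemma D_mulR_LL {w h κ : F} (hκ : dg κ = 0) :
    D (dl LL th) w (h * κ) = th κ⁻¹ * D (dl LL th) w h := by
  unfold D
  rw [Finsupp.sum, Finsupp.sum, Finset.mul_sum]
  apply Finset.sum_congr rfl
  intro g _
  rw [← mul_assoc]
  have : dl LL th (g⁻¹ * h * κ) = th κ⁻¹ * dl LL th (g⁻¹ * h) := by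
    unfold dl
    by_cases hh : g⁻¹ * h ∈ LL
    · rw [if_pos hh, if_pos (LL.mul_mem hh (mem_LL.2 hκ)), mul_inv_rev, th_mul (by simp [hκ])]
    · rw [if_neg hh, if_neg, mul_zero]
      intro h1
      exact hh ((LL.mul_mem_cancel_right (mem_LL.2 hκ)).1 h1)
  rw [this, mul_smul_comm]

/-- pairing with the sign function -/
noncomputable def E0 (w : F) : ℤ := D (dl LL th) w gu

lemma E0_mul {v w : F} (hv : v ∈ KK 0) : E0 (v * w) = E0 v + E0 w := by
  unfold E0
  rw [D_mul]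
  have e : v⁻¹ * gu = gu * (gu⁻¹ * v * gu)⁻¹ := by group
  have hv0 : dg v = 0 := hv.1
  rw [e, D_mulR_LL (by simp [hv0]), inv_inv, th_triv hv, one_mul]

lemma E0_parity (w : F) : ((E0 w : ℤ) : ZMod 2) = ((cnt w : ℤ) : ZMod 2) := by
  unfold E0 cnt
  have h1 := D_map (Int.castRingHom (ZMod 2)) LL th w gu
  have h2 := D_map (Int.castRingHom (ZMod 2)) LL (fun _ => (1 : ℤ)) w gu
  have h3 : (fun x => (Int.castRingHom (ZMod 2)) (th x)) = fun _ => (Int.castRingHom (ZMod 2)) 1 := by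
    funext x
    rcases th_cases x with hx | hx
    · rw [hx]
    · rw [hx]; decide
  rw [h3] at h1
  simpa using h1.trans h2.symm

lemma E0_shift {k : ℕ} {w : F} (hw : w ∈ KK (k + 1)) : E0 (gu⁻¹ * w * gu) = 0 := by
  have h1 : E0 (gu⁻¹ * w * gu) = D (dl LL th) w (gu * gu) := by
    unfold E0
    have := D_conj_gu (dl LL th) (-1) w gu
    simpa using this
  rw [h1]
  apply push (KK_zero_le) (fun x hx y _ => th_mul (mem_LL.1 hx)) (Spec_refl _ _)
  intro κ hκ
  rw [mem_LL] at hκ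
  have hw1 : w ∈ KK 1 := by
    clear h1
    induction k with
    | zero => exact hw
    | succ k ih => exact ih (KK_succ_le _ hw)
  exact hw1.2 _ (by simp [hκ])

lemma exists_nat_bound (s : Finset F) (g : F → ℤ) : ∃ P : ℕ, ∀ x ∈ s, 0 ≤ g x + P := by
  refine ⟨∑ x ∈ s, (g x).natAbs, fun x hx => ?_⟩
  have := Finset.single_le_sum (f := fun x => (g x).natAbs) (fun i _ => Nat.zero_le _) hx
  omega

lemma neg_one_pow_toNat {m : ℤ} (hm : 0 ≤ m) : ((-1 : ℤ)) ^ m.toNat = (m.negOnePow : ℤˣ) := by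
  obtain ⟨n, rfl⟩ := Int.eq_ofNat_of_zero_le hm
  rw [Int.toNat_natCast, Int.negOnePow_def]
  simp

lemma negOnePow_congr {m n : ℤ} (h : ((m : ℤ) : ZMod 2) = (n : ZMod 2)) :
    m.negOnePow = n.negOnePow := by
  rw [Int.negOnePow_eq_iff]
  have : ((m - n : ℤ) : ZMod 2) = 0 := by push_cast; rw [h]; ring
  rw [ZMod.intCast_zmod_eq_zero_iff_dvd] at this
  exact even_iff_two_dvd.2 (by exact_mod_cast this)

lemma exists_transcendental : ∃ σ : ℝ, 2 < σ ∧ Transcendental ℤ σ := by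
  have h := transcendental_liouvilleNumber (m := 2) le_rfl
  have hpos : 0 < liouvilleNumber ((2 : ℕ) : ℝ) := by
    have h1 := LiouvilleNumber.partialSum_add_remainder (m := ((2 : ℕ) : ℝ)) (by norm_num) 0
    have h2 := LiouvilleNumber.remainder_pos (m := ((2 : ℕ) : ℝ)) (by norm_num) 0
    have h3 : 0 ≤ LiouvilleNumber.partialSum ((2 : ℕ) : ℝ) 0 := by
      unfold LiouvilleNumber.partialSum
      positivity
    linarith
  refine ⟨liouvilleNumber ((2 : ℕ) : ℝ) + 2, by linarith, ?_⟩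
  intro halg
  apply h
  have h2 : IsAlgebraic ℤ (2 : ℝ) := by
    have := isAlgebraic_algebraMap (R := ℤ) (A := ℝ) (2 : ℤ)
    simpa using this
  have := halg.sub h2
  simpa using this

lemma exists_data (k : ℕ) : ∃ (χ : F → ℝ) (c : F), Ch (KK (k + 1)) χ ∧
    (∀ w ∈ KK (k + 1), 0 < χ w) ∧ Spec (KK (k + 1)) χ th ∧ c ∈ derivedSeries F (k + 2) ∧
    c ∈ Lge 1 ∧ c ∈ KK (k + 1) ∧ χ (gen 1) = χ c ^ 2 - 2 * χ c ∧ 2 < χ c := by
  obtain ⟨c, hs, hcd, hcp, hcK, hhs, hne, hz⟩ := exists_c k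
  obtain ⟨σ, hσ2, hσ⟩ := exists_transcendental
  -- exponents
  set jj : F → ℤ := fun w => D (dl (KK k) th) w gu with hjj
  set ss : F → ℤ := fun w => D (dl (KK k) th) w hs with hss
  set p : ℤ := ss c * (|E0 c| + 1) with hp
  set E : F → ℤ := fun w => E0 w - jj w + 2 * p * ss w with hE
  have hmul_lev : ∀ (h : F), dg h = 1 → ∀ v ∈ KK (k + 1), ∀ w, D (dl (KK k) th) (v * w) h
      = D (dl (KK k) th) v h + D (dl (KK k) th) w h := by
    intro h hh v hv w
    rw [D_mul, D_triv (KK_Lv k) (KK_Ch k) (inN_one.2 (KK_succ_le k hv)) (by omega)]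
  have hjmul : ∀ v ∈ KK (k + 1), ∀ w, jj (v * w) = jj v + jj w :=
    fun v hv w => hmul_lev gu (by simp) v hv w
  have hsmul : ∀ v ∈ KK (k + 1), ∀ w, ss (v * w) = ss v + ss w :=
    fun v hv w => hmul_lev hs hhs v hv w
  have hEmul : ∀ v ∈ KK (k + 1), ∀ w, E (v * w) = E v + E w := by
    intro v hv w
    simp only [hE]
    rw [E0_mul (KK_le_zero _ hv), hjmul v hv w, hsmul v hv w]
    ring
  have hj1 : jj 1 = 0 := by simp [hjj]
  have hs1 : ss 1 = 0 := by simp [hss]
  have hE1 : E 1 = 0 := by simp [hE, hj1, hs1, E0]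
  have hlevshift : ∀ (h : F), dg h = 1 → ∀ w ∈ KK (k + 1),
      D (dl (KK k) th) (gu⁻¹ * w * gu) h = 0 := by
    intro h hh w hw
    have h1 : D (dl (KK k) th) (gu⁻¹ * w * gu) h = D (dl (KK k) th) w (gu * h) := by
      have := D_conj_gu (dl (KK k) th) (-1) w h
      simpa using this
    rw [h1]
    exact hw.2 _ (by simp [hh])
  have hjshift : ∀ w ∈ KK (k + 1), jj (gu⁻¹ * w * gu) = 0 :=
    fun w hw => hlevshift gu (by simp) w hw
  have hEshift : ∀ w ∈ KK (k + 1), E (gu⁻¹ * w * gu) = 0 := by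
    intro w hw
    simp only [hE]
    have h3 : ss (gu⁻¹ * w * gu) = 0 := hlevshift hs hhs w hw
    rw [E0_shift hw, hjshift w hw, h3]
    ring
  have hjc : jj c = 0 := hz
  have hcnt : ((cnt c : ℤ) : ZMod 2) = 0 := by
    have h1 : c ∈ RR (KK 0) := derived_le_RR 0 (derivedSeries_antitone F (by omega) hcd)
    have h2 := (mem_RR_Knext.1 h1).2 gu
    rw [← D_mod_two] at h2
    exact h2
  have hpar : ∀ w, ((E w + jj w : ℤ) : ZMod 2) = ((cnt w : ℤ) : ZMod 2) := by
    intro w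
    have : E w + jj w = E0 w + 2 * (p * ss w) := by simp only [hE]; ring
    rw [this]
    push_cast
    rw [E0_parity]
    have h2 : (2 : ZMod 2) = 0 := by decide
    rw [h2]
    ring
  have hssc : ss c ≠ 0 := hne
  have hCpos : 0 < E c := by
    simp only [hE]
    rw [hjc, hp]
    have h1 : 1 ≤ ss c * ss c := by
      have : 0 < ss c * ss c := mul_self_pos.2 hssc
      omega
    have h2 : 0 ≤ |E0 c| := abs_nonneg _
    have h3 : -|E0 c| ≤ E0 c := neg_abs_le _
    nlinarith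
  have hCeven : ((E c : ℤ) : ZMod 2) = 0 := by
    have := hpar c
    rw [hjc, add_zero, hcnt] at this
    exact this
  obtain ⟨m, hC⟩ := Int.eq_ofNat_of_zero_le hCpos.le
  have hC1 : 1 ≤ m := by omega
  have hσ0 : (0 : ℝ) < σ := by linarith
  have hσC : 2 < σ ^ m := by
    calc (2 : ℝ) < σ := hσ2
      _ = σ ^ 1 := (pow_one σ).symm
      _ ≤ σ ^ m := pow_le_pow_right₀ (by linarith) hC1
  set α : ℝ := σ ^ m * (σ ^ m - 2) with hα
  have hα0 : 0 < α := by
    apply mul_pos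
    · positivity
    · linarith
  have hCevenN : Even m := by
    rw [hC] at hCeven
    rw [Int.cast_natCast, ZMod.natCast_eq_zero_iff_even] at hCeven
    exact hCeven
  refine ⟨fun w => α ^ (jj w) * σ ^ (E w), c, ?_, ?_, ?_, hcd, hcp, hcK, ?_, ?_⟩
  · refine ⟨?_, ?_, ?_⟩
    · simp [hj1, hE1]
    · intro v hv w _
      rw [hjmul v hv w, hEmul v hv w, zpow_add₀ hα0.ne', zpow_add₀ hσ0.ne']
      ring
    · intro w hw
      rw [hjshift w hw, hEshift w hw]
      simp
  · intro w _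
    positivity
  · intro s n f hf hsum
    obtain ⟨P, hP⟩ := exists_nat_bound s (fun x => jj (f x))
    obtain ⟨Q, hQ⟩ := exists_nat_bound s (fun x => E (f x) + m * jj (f x))
    let pol : ℤ[X] := ∑ x ∈ s, (n x) • ((X ^ m - 2) ^ ((jj (f x) + P).toNat) *
      X ^ ((E (f x) + m * jj (f x) + Q).toNat))
    set b : ℝ := σ ^ m - 2 with hb
    have hb0 : 0 < b := by rw [hb]; linarith
    have haev : aeval σ pol = b ^ P * σ ^ Q * ∑ x ∈ s, n x • (α ^ (jj (f x)) * σ ^ (E (f x))) := by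
      simp only [pol, map_sum, map_zsmul, map_mul, map_pow, map_sub, aeval_X]
      rw [Finset.mul_sum]
      apply Finset.sum_congr rfl
      intro x hx
      have h1 : b ^ ((jj (f x) + P).toNat) = b ^ (jj (f x) + P) := by
        rw [← zpow_natCast, Int.toNat_of_nonneg (hP x hx)]
      have h2 : σ ^ ((E (f x) + m * jj (f x) + Q).toNat) = σ ^ (E (f x) + m * jj (f x) + Q) := by
        rw [← zpow_natCast, Int.toNat_of_nonneg (hQ x hx)]
      have h3 : (aeval σ) (2 : ℤ[X]) = 2 := by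
        have := aeval_C (R := ℤ) (x := σ) (2 : ℤ)
        simpa using this
      rw [h3, ← hb, h1, h2, mul_smul_comm]
      congr 1
      rw [hα, mul_zpow, zpow_add₀ hb0.ne', zpow_add₀ hσ0.ne', zpow_add₀ hσ0.ne',
        zpow_natCast, zpow_natCast, zpow_mul, zpow_natCast]
      ring
    rw [hsum, mul_zero] at haev
    have hpol : pol = 0 := by
      by_contra hne
      exact hσ ⟨pol, hne, haev⟩
    have hev : eval (-1) pol = 0 := by rw [hpol]; simp
    have hev2 : eval (-1) pol = (((P : ℤ) + Q).negOnePow : ℤˣ) * ∑ x ∈ s, n x • th (f x) := by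
      simp only [pol]
      rw [eval_finsetSum, Finset.mul_sum]
      apply Finset.sum_congr rfl
      intro x hx
      rw [eval_smul, eval_mul, eval_pow, eval_pow, eval_sub, eval_pow, eval_X,
        hCevenN.neg_one_pow]
      have h2 : eval (-1 : ℤ) (2 : ℤ[X]) = 2 := by simp
      rw [h2]
      have h3 : (1 : ℤ) - 2 = -1 := by norm_num
      rw [h3, neg_one_pow_toNat (hP x hx), neg_one_pow_toNat (hQ x hx), mul_smul_comm]
      congr 1
      unfold th
      rw [← Units.val_mul, ← Units.val_mul, ← Int.negOnePow_add, ← Int.negOnePow_add]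
      congr 1
      apply negOnePow_congr
      have h4 := hpar (f x)
      have h5 : (m : ZMod 2) = 0 := (ZMod.natCast_eq_zero_iff_even).2 hCevenN
      push_cast at h4 ⊢
      rw [← h4, h5]
      ring
    rw [hev2] at hev
    rcases mul_eq_zero.1 hev with h | h
    · exact absurd h (Units.ne_zero _)
    · exact h
  · have h1 : jj (gen 1) = 1 := D_gen_one_gu k
    have h2 : ss (gen 1) = 0 := by
      simp only [hss]
      rw [D_gen]
      by_contra hcon
      have h3 := dl_ne_zero hcon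
      rw [zpow_one] at h3
      apply hne
      have h4 := D_mulR (KK_Ch k) h3 c gu
      rw [mul_inv_cancel_left, hz, mul_zero] at h4
      exact h4
    have h3 : E0 (gen 1) = 1 := by
      unfold E0
      rw [D_gen]
      simp [dl, LL.one_mem]
    have h4 : E (gen 1) = 0 := by
      simp only [hE]
      rw [h1, h2, h3]; ring
    simp only
    rw [h1, h4, hjc, hC]
    simp
    ring
  · simp only
    rw [hjc, hC]
    simpa using hσC

end Pool.Agent.helper52.OS
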