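import Pool.Agent.helper52.OSBasic

/-!
Levels and characters.
-/

namespace Pool.Agent.helper52.OS

open Finset

/-- the kernel of the degree homomorphism -/
def LL : Subgroup F := degHom.ker

lemma mem_LL {w : F} : w ∈ LL ↔ dg w = 0 := by
  rw [LL, MonoidHom.mem_ker, dg]
  constructor
  · intro h; rw [h]; rfl
  · intro h; exact Multiplicative.toAdd.injective h

/-- A level subgroup: normal in the kernel of the degree and stable under the negative shift. -/
structure Lv (K : Subgroup F) : Prop where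
  deg0 : ∀ w ∈ K, dg w = 0
  norm : ∀ v, dg v = 0 → ∀ w ∈ K, v * w * v⁻¹ ∈ K
  shift : ∀ w ∈ K, gu⁻¹ * w * gu ∈ K

/-- A character of a level subgroup, trivial on the shifted subgroup. -/
structure Ch {R : Type*} [CommRing R] (K : Subgroup F) (χ : F → R) : Prop where
  one : χ 1 = 1
  mul : ∀ x ∈ K, ∀ y ∈ K, χ (x * y) = χ x * χ y
  triv : ∀ w ∈ K, χ (gu⁻¹ * w * gu) = 1

open Classical in
/-- the function supported on `K` given by the character -/
noncomputable def dl {R : Type*} [CommRing R] (K : Subgroup F) (χ : F → R) (h : F) : R :=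
  if h ∈ K then χ h⁻¹ else 0

/-- membership in the `j`-th level subgroup -/
def inN (K : Subgroup F) (j : ℤ) (w : F) : Prop := gu ^ (1 - j) * w * (gu ^ (1 - j))⁻¹ ∈ K

lemma inN_one {K : Subgroup F} {w : F} : inN K 1 w ↔ w ∈ K := by
  simp [inN]

lemma inN_conj {K : Subgroup F} (hK : Lv K) {i : ℤ} {w : F} (h : inN K i w) (g : F) :
    inN K (i + dg g) (g * w * g⁻¹) := by
  unfold inN at *
  have h1 := hK.norm (gu ^ (1 - (i + dg g)) * g * (gu ^ (1 - i))⁻¹) (by simp; ring) _ h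
  have h2 : gu ^ (1 - (i + dg g)) * (g * w * g⁻¹) * (gu ^ (1 - (i + dg g)))⁻¹
      = gu ^ (1 - (i + dg g)) * g * (gu ^ (1 - i))⁻¹ * (gu ^ (1 - i) * w * (gu ^ (1 - i))⁻¹) *
        (gu ^ (1 - (i + dg g)) * g * (gu ^ (1 - i))⁻¹)⁻¹ := by group
  rw [h2]
  exact h1

lemma inN_succ {K : Subgroup F} (hK : Lv K) {i : ℤ} {w : F} (h : inN K i w) :
    inN K (i + 1) w := by
  unfold inN at *
  have h1 := hK.shift _ h
  have h2 : gu ^ (1 - (i + 1)) * w * (gu ^ (1 - (i + 1)))⁻¹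
      = gu⁻¹ * (gu ^ (1 - i) * w * (gu ^ (1 - i))⁻¹) * gu := by
    have : gu ^ (1 - (i + 1)) = gu⁻¹ * gu ^ (1 - i) := by
      rw [← zpow_neg_one, ← zpow_add]; congr 1; ring
    rw [this]; group
  rw [h2]
  exact h1

lemma inN_mono {K : Subgroup F} (hK : Lv K) {i j : ℤ} {w : F} (h : inN K i w) (hij : i ≤ j) :
    inN K j w := by
  obtain ⟨n, rfl⟩ := Int.le.dest hij
  induction n with
  | zero => simpa using h
  | succ n ih =>
    have := inN_succ hK (ih (by omega))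
    have e : i + (n : ℤ) + 1 = i + ((n + 1 : ℕ) : ℤ) := by push_cast; ring
    rw [← e]
    exact this

lemma inN_mem_mul {K : Subgroup F} {i : ℤ} {v w : F} (hv : inN K i v) (hw : inN K i w) :
    inN K i (v * w) := by
  unfold inN at *
  have := K.mul_mem hv hw
  have e : gu ^ (1 - i) * v * (gu ^ (1 - i))⁻¹ * (gu ^ (1 - i) * w * (gu ^ (1 - i))⁻¹)
    = gu ^ (1 - i) * (v * w) * (gu ^ (1 - i))⁻¹ := by group
  rwa [e] at this

lemma inN_inv {K : Subgroup F} {i : ℤ} {v : F} (hv : inN K i v) :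
    inN K i v⁻¹ := by
  unfold inN at *
  have := K.inv_mem hv
  have e : (gu ^ (1 - i) * v * (gu ^ (1 - i))⁻¹)⁻¹ = gu ^ (1 - i) * v⁻¹ * (gu ^ (1 - i))⁻¹ := by
    group
  rwa [e] at this

lemma inN_deg {K : Subgroup F} (hK : Lv K) {i : ℤ} {w : F} (h : inN K i w) : dg w = 0 := by
  have := hK.deg0 _ h
  simp at this
  omega

section
variable {R : Type*} [CommRing R] {K : Subgroup F} {χ : F → R}

lemma Ch.mul_inv (hc : Ch K χ) {x : F} (hx : x ∈ K) : χ x * χ x⁻¹ = 1 := by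
  rw [← hc.mul x hx x⁻¹ (K.inv_mem hx)]; simp [hc.one]

lemma dl_one (hc : Ch K χ) : dl K χ 1 = 1 := by
  unfold dl
  rw [if_pos K.one_mem]; simp [hc.one]

lemma dl_mulR (hc : Ch K χ) {κ : F} (hκ : κ ∈ K) (h : F) :
    dl K χ (h * κ) = χ κ⁻¹ * dl K χ h := by
  unfold dl
  by_cases hh : h ∈ K
  · rw [if_pos hh, if_pos (K.mul_mem hh hκ), mul_inv_rev,
      hc.mul _ (K.inv_mem hκ) _ (K.inv_mem hh)]
  · rw [if_neg hh, if_neg, mul_zero]
    intro h1
    exact hh ((K.mul_mem_cancel_right hκ).1 h1)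

lemma dl_mulL (hc : Ch K χ) {κ : F} (hκ : κ ∈ K) (h : F) :
    dl K χ (κ⁻¹ * h) = χ κ * dl K χ h := by
  unfold dl
  by_cases hh : h ∈ K
  · rw [if_pos hh, if_pos (K.mul_mem (K.inv_mem hκ) hh), mul_inv_rev, inv_inv,
      hc.mul _ (K.inv_mem hh) _ hκ, mul_comm]
  · rw [if_neg hh, if_neg, mul_zero]
    intro h1
    exact hh ((K.mul_mem_cancel_left (K.inv_mem hκ)).1 h1)

lemma D_mulR (hc : Ch K χ) {κ : F} (hκ : κ ∈ K) (w h : F) :
    D (dl K χ) w (h * κ) = χ κ⁻¹ * D (dl K χ) w h := by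
  unfold D
  rw [Finsupp.sum, Finsupp.sum, Finset.mul_sum]
  apply Finset.sum_congr rfl
  intro g _
  rw [← mul_assoc, dl_mulR hc hκ, mul_smul_comm]

/-- elements of level at most `j` act trivially on functions of level at least `j` -/
lemma D_triv (hK : Lv K) (hc : Ch K χ) {j : ℤ} {w h : F} (hw : inN K j w) (hj : j ≤ dg h)
    (v : F) : D (dl K χ) v (w⁻¹ * h) = D (dl K χ) v h := by
  have h1 : inN K (dg h + dg (gu * h⁻¹)) (gu * h⁻¹ * w * (gu * h⁻¹)⁻¹) :=
    inN_conj hK (inN_mono hK hw hj) _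
  have h2 : gu * h⁻¹ * w * (gu * h⁻¹)⁻¹ ∈ K := by
    rw [← inN_one]
    have : dg h + dg (gu * h⁻¹) = 1 := by simp
    rwa [this] at h1
  have h3 : h⁻¹ * w * h ∈ K := by
    have := hK.shift _ h2
    have e : gu⁻¹ * (gu * h⁻¹ * w * (gu * h⁻¹)⁻¹) * gu = h⁻¹ * w * h := by group
    rwa [e] at this
  have h4 : χ (h⁻¹ * w * h) = 1 := by
    have := hc.triv _ h2
    have e : gu⁻¹ * (gu * h⁻¹ * w * (gu * h⁻¹)⁻¹) * gu = h⁻¹ * w * h := by group
    rwa [e] at this
  have h5 : w⁻¹ * h = h * (h⁻¹ * w * h)⁻¹ := by group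
  rw [h5, D_mulR hc (K.inv_mem h3), inv_inv, h4, one_mul]

end

/-- The next level subgroup. -/
def Knext {R : Type*} [AddCommGroup R] (δ : F → R) : Subgroup F where
  carrier := {w | dg w = 0 ∧ ∀ h, 1 < dg h → D δ w h = 0}
  mul_mem' := by
    rintro v w ⟨hv, hv'⟩ ⟨hw, hw'⟩
    refine ⟨by simp [hv, hw], fun h hh => ?_⟩
    rw [D_mul, hv' h hh, hw' _ (by simpa [hv] using hh), add_zero]
  one_mem' := ⟨by simp, fun h _ => by simp⟩
  inv_mem' := by
    rintro v ⟨hv, hv'⟩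
    refine ⟨by simp [hv], fun h hh => ?_⟩
    rw [D_inv, hv' _ (by simpa [hv] using hh), neg_zero]

lemma mem_Knext {R : Type*} [AddCommGroup R] {δ : F → R} {w : F} :
    w ∈ Knext δ ↔ dg w = 0 ∧ ∀ h, 1 < dg h → D δ w h = 0 := Iff.rfl

lemma inN_Knext {R : Type*} [AddCommGroup R] {δ : F → R} {w : F} {i : ℤ} :
    inN (Knext δ) i w ↔ dg w = 0 ∧ ∀ h, i < dg h → D δ w h = 0 := by
  unfold inN
  rw [mem_Knext]
  constructor
  · rintro ⟨h1, h2⟩
    refine ⟨by simp at h1; omega, fun h hh => ?_⟩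
    have := h2 (gu ^ (1 - i) * h) (by simp; linarith)
    rw [D_conj_gu] at this
    simpa using this
  · rintro ⟨h1, h2⟩
    refine ⟨by simp; omega, fun h hh => ?_⟩
    rw [D_conj_gu]
    apply h2
    simp
    linarith

lemma Lv_Knext {R : Type*} [CommRing R] {K : Subgroup F} {χ : F → R} (hK : Lv K) (hc : Ch K χ)
    (hle : Knext (dl K χ) ≤ K) : Lv (Knext (dl K χ)) where
  deg0 w hw := hw.1
  norm v hv w hw := by
    refine ⟨by simp [hw.1], fun h hh => ?_⟩
    rw [D_conj, hw.2 _ (by simpa [hv] using hh)]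
    have : inN K 1 (v * w * v⁻¹) := by
      rw [inN_one]; exact hK.norm v hv w (hle hw)
    rw [D_triv hK hc this (by omega)]
    simp
  shift w hw := by
    have h1 : inN (Knext (dl K χ)) 1 w := inN_one.2 hw
    rw [inN_Knext] at h1
    have h2 : inN (Knext (dl K χ)) 2 w := by
      rw [inN_Knext]; exact ⟨h1.1, fun h hh => h1.2 h (by omega)⟩
    unfold inN at h2
    norm_num at h2
    exact h2

end Pool.Agent.helper52.OS
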