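import Pool.Agent.helper52.OSChar

/-!
Orders: the left order on cosets of a level subgroup and the final bi-invariant cone.
-/

namespace Pool.Agent.helper52.OS

open Finset

/-- `F / M` is bi-orderable, expressed by a cone in `F`. -/
def Ordb (M : Subgroup F) : Prop :=
  ∃ P : Set F, (∀ x ∈ P, ∀ y ∈ P, x * y ∈ P) ∧ (∀ x ∈ P, ∀ g, g * x * g⁻¹ ∈ P) ∧
    (∀ x, x ∉ M → x ∈ P ∨ x⁻¹ ∈ P) ∧ (∀ x ∈ P, x ∉ M)

/-- positivity of an integer valued function, leading term in degree `i` -/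
def posAt (i : ℤ) (f : F → ℤ) : Prop :=
  ∃ h, dg h = i ∧ 0 < f h ∧ (∀ h', i < dg h' → f h' = 0) ∧
    (∀ h', dg h' = i → WellOrderingRel h' h → f h' = 0)

lemma posAt_add {i j : ℤ} {f g : F → ℤ} (hf : posAt i f) (hg : posAt j g) :
    posAt (max i j) (fun h => f h + g h) := by
  obtain ⟨a, ha1, ha2, ha3, ha4⟩ := hf
  obtain ⟨b, hb1, hb2, hb3, hb4⟩ := hg
  rcases lt_trichotomy i j with hij | hij | hij
  · rw [max_eq_right hij.le]
    refine ⟨b, hb1, ?_, ?_, ?_⟩
    · show 0 < f b + g b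
      rw [ha3 b (by omega)]; simpa using hb2
    · intro h' hh'; show f h' + g h' = 0; rw [ha3 h' (by omega), hb3 h' hh']; rfl
    · intro h' hh' hr; show f h' + g h' = 0; rw [ha3 h' (by omega), hb4 h' hh' hr]; rfl
  · subst hij
    rw [max_self]
    rcases trichotomous_of WellOrderingRel a b with hab | hab | hab
    · refine ⟨a, ha1, ?_, ?_, ?_⟩
      · show 0 < f a + g a
        rw [hb4 a ha1 hab]; simpa using ha2
      · intro h' hh'; show f h' + g h' = 0; rw [ha3 h' hh', hb3 h' hh']; rfl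
      · intro h' hh' hr
        show f h' + g h' = 0
        rw [ha4 h' hh' hr, hb4 h' hh' (trans_of WellOrderingRel hr hab)]; rfl
    · subst hab
      refine ⟨a, ha1, by positivity, ?_, ?_⟩
      · intro h' hh'; show f h' + g h' = 0; rw [ha3 h' hh', hb3 h' hh']; rfl
      · intro h' hh' hr
        show f h' + g h' = 0
        rw [ha4 h' hh' hr, hb4 h' hh' hr]; rfl
    · refine ⟨b, hb1, ?_, ?_, ?_⟩
      · show 0 < f b + g b
        rw [ha4 b hb1 hab]; simpa using hb2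
      · intro h' hh'; show f h' + g h' = 0; rw [ha3 h' hh', hb3 h' hh']; rfl
      · intro h' hh' hr
        show f h' + g h' = 0
        rw [hb4 h' hh' hr, ha4 h' hh' (trans_of WellOrderingRel hr hab)]; rfl
  · rw [max_eq_left hij.le]
    refine ⟨a, ha1, ?_, ?_, ?_⟩
    · show 0 < f a + g a
      rw [hb3 a (by omega)]; simpa using ha2
    · intro h' hh'; show f h' + g h' = 0; rw [hb3 h' (by omega), ha3 h' hh']; rfl
    · intro h' hh' hr; show f h' + g h' = 0; rw [hb3 h' (by omega), ha4 h' hh' hr]; rfl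

lemma posAt_congr {i : ℤ} {f g : F → ℤ} (hf : posAt i f) (h : ∀ h, i ≤ dg h → f h = g h) :
    posAt i g := by
  obtain ⟨a, ha1, ha2, ha3, ha4⟩ := hf
  refine ⟨a, ha1, ?_, ?_, ?_⟩
  · rw [← h a (by omega)]; exact ha2
  · intro h' hh'; rw [← h h' (by omega)]; exact ha3 h' hh'
  · intro h' hh' hr; rw [← h h' (by omega)]; exact ha4 h' hh' hr

lemma posAt_total {f : F → ℤ} {N : ℤ} (hN : ∀ h, f h ≠ 0 → dg h ≤ N) (m : ℤ)
    (hex : ∃ h, m < dg h ∧ f h ≠ 0) :
    ∃ i, m < i ∧ (posAt i f ∨ posAt i (fun h => - f h)) := by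
  obtain ⟨h0, hh0, hne0⟩ := hex
  obtain ⟨i, ⟨hi1, h1, hh1, hne1⟩, hi2⟩ := Int.exists_greatest_of_bdd
    (P := fun i => m < i ∧ ∃ h, dg h = i ∧ f h ≠ 0)
    ⟨N, fun z hz => by obtain ⟨_, h, hh, hne⟩ := hz; rw [← hh]; exact hN h hne⟩
    ⟨dg h0, hh0, h0, rfl, hne0⟩
  have hwf : WellFounded (WellOrderingRel (α := F)) := IsWellFounded.wf
  have hne : {h | dg h = i ∧ f h ≠ 0}.Nonempty := ⟨h1, hh1, hne1⟩
  set a := hwf.min _ hne with ha
  have ha1 : dg a = i ∧ f a ≠ 0 := hwf.min_mem _ hne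
  have ha2 : ∀ h', dg h' = i → WellOrderingRel h' a → f h' = 0 := by
    intro h' hh' hr
    by_contra hcon
    exact hwf.not_lt_min {h | dg h = i ∧ f h ≠ 0} (x := h') ⟨hh', hcon⟩ hr
  have ha3 : ∀ h', i < dg h' → f h' = 0 := by
    intro h' hh'
    by_contra hcon
    have := hi2 (dg h') ⟨by omega, h', rfl, hcon⟩
    omega
  refine ⟨i, hi1, ?_⟩
  rcases lt_or_gt_of_ne ha1.2 with hlt | hgt
  · right
    refine ⟨a, ha1.1, by simpa using hlt, ?_, ?_⟩
    · intro h' hh'; show - f h' = 0; rw [ha3 h' hh']; rfl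
    · intro h' hh' hr; show - f h' = 0; rw [ha2 h' hh' hr]; rfl
  · left
    exact ⟨a, ha1.1, hgt, ha3, ha2⟩

lemma D_bdd {R : Type*} [CommRing R] {K : Subgroup F} (hK : Lv K) (χ : F → R) (w : F) :
    ∃ N : ℤ, ∀ h, D (dl K χ) w h ≠ 0 → dg h ≤ N := by
  obtain ⟨N, hN⟩ := exists_nat_bound (fox w).support (fun g => - dg g)
  refine ⟨N, fun h hne => ?_⟩
  obtain ⟨g, hg, hg'⟩ := exists_of_D_ne_zero _ _ _ hne
  have h1 := hK.deg0 _ (dl_ne_zero hg')
  have h2 := hN g hg
  simp at h1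
  omega

lemma inN_le {K K' : Subgroup F} (h : K ≤ K') {i : ℤ} {w : F} (hw : inN K i w) : inN K' i w :=
  h hw

/-- positive cone of the left order on cosets of `KK (k+1)` -/
def QQ (k : ℕ) (w : F) : Prop := dg w = 0 ∧ ∃ i, 1 < i ∧ posAt i (D (dl (KK k) th) w)

section Q
variable {k : ℕ}

lemma inN_of_posAt {i : ℤ} {w : F} (h0 : dg w = 0) (h : posAt i (D (dl (KK k) th) w)) :
    inN (KK (k + 1)) i w := by
  obtain ⟨a, ha1, ha2, ha3, ha4⟩ := h
  exact inN_Knext.2 ⟨h0, ha3⟩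

lemma QQ_mul {v w : F} (hv : QQ k v) (hw : QQ k w) : QQ k (v * w) := by
  obtain ⟨hv0, i, hi, hvi⟩ := hv
  obtain ⟨hw0, j, hj, hwj⟩ := hw
  refine ⟨by simp [hv0, hw0], max i j, by omega, ?_⟩
  apply posAt_congr (posAt_add hvi hwj)
  intro h hh
  have h1 := inN_le (KK_succ_le k) (inN_of_posAt hv0 hvi)
  rw [D_mul, D_triv (KK_Lv k) (KK_Ch k) h1 (by omega)]

lemma QQ_mulL {v w : F} (hv : v ∈ KK (k + 1)) (hw : QQ k w) : QQ k (v * w) := by
  obtain ⟨hw0, j, hj, hwj⟩ := hw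
  refine ⟨by simp [hv.1, hw0], j, hj, ?_⟩
  apply posAt_congr hwj
  intro h hh
  rw [D_mul, hv.2 h (by omega), D_triv (KK_Lv k) (KK_Ch k) (inN_one.2 (KK_succ_le k hv)) (by omega),
    zero_add]

lemma QQ_mulR {v w : F} (hv : v ∈ KK (k + 1)) (hw : QQ k w) : QQ k (w * v) := by
  obtain ⟨hw0, j, hj, hwj⟩ := hw
  refine ⟨by simp [hv.1, hw0], j, hj, ?_⟩
  apply posAt_congr hwj
  intro h hh
  rw [D_mul, hv.2 (w⁻¹ * h) (by simp [hw0]; omega), add_zero]

lemma QQ_not_mem {w : F} (hw : QQ k w) : w ∉ KK (k + 1) := by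
  obtain ⟨hw0, j, hj, a, ha1, ha2, ha3, ha4⟩ := hw
  intro hcon
  have := hcon.2 a (by omega)
  omega

lemma QQ_total {w : F} (h0 : dg w = 0) (hw : w ∉ KK (k + 1)) : QQ k w ∨ QQ k w⁻¹ := by
  have hex : ∃ h, 1 < dg h ∧ D (dl (KK k) th) w h ≠ 0 := by
    by_contra hcon
    push Not at hcon
    exact hw ⟨h0, hcon⟩
  obtain ⟨N, hN⟩ := D_bdd (KK_Lv k) th w
  obtain ⟨i, hi, h | h⟩ := posAt_total hN 1 hex
  · left; exact ⟨h0, i, hi, h⟩
  · right
    refine ⟨by simp [h0], i, hi, ?_⟩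
    apply posAt_congr h
    intro h' hh'
    have h1 : inN (KK (k + 1)) i w := by
      obtain ⟨a, ha1, ha2, ha3, ha4⟩ := h
      exact inN_Knext.2 ⟨h0, fun h'' hh'' => by simpa using ha3 h'' hh''⟩
    have h2 := D_triv (KK_Lv k) (KK_Ch k) (inN_le (KK_succ_le k) (inN_inv h1)) hh' w
    rw [inv_inv] at h2
    rw [D_inv, h2]

end Q

section final
variable {k : ℕ} {χ : F → ℝ}

/-- positivity for the bottom layer -/
def posF (k : ℕ) (i : ℤ) (f : F → ℝ) : Prop :=
  ∃ h, dg h = i ∧ 0 < f h ∧ (∀ h', i < dg h' → f h' = 0) ∧ (∀ h', QQ k (h⁻¹ * h') → f h' = 0)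

lemma posF_add (hpos : ∀ w ∈ KK (k + 1), 0 < χ w) {i j : ℤ} {f g : F → ℝ}
    (ef : ∀ κ ∈ KK (k + 1), ∀ h, f (h * κ) = χ κ⁻¹ * f h)
    (eg : ∀ κ ∈ KK (k + 1), ∀ h, g (h * κ) = χ κ⁻¹ * g h)
    (hf : posF k i f) (hg : posF k j g) : posF k (max i j) (fun h => f h + g h) := by
  obtain ⟨a, ha1, ha2, ha3, ha4⟩ := hf
  obtain ⟨b, hb1, hb2, hb3, hb4⟩ := hg
  have hQdg : ∀ {x y : F}, QQ k (x⁻¹ * y) → dg y = dg x := by
    intro x y h
    have := h.1
    simp at this
    omega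
  rcases lt_trichotomy i j with hij | hij | hij
  · rw [max_eq_right hij.le]
    refine ⟨b, hb1, ?_, ?_, ?_⟩
    · show 0 < f b + g b; rw [ha3 b (by omega)]; simpa using hb2
    · intro h' hh'; show f h' + g h' = 0; rw [ha3 h' (by omega), hb3 h' hh']; ring
    · intro h' hr
      have := hQdg hr
      show f h' + g h' = 0
      rw [ha3 h' (by omega), hb4 h' hr]; ring
  · subst hij
    rw [max_self]
    by_cases hK : a⁻¹ * b ∈ KK (k + 1)
    · refine ⟨a, ha1, ?_, ?_, ?_⟩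
      · have h1 := eg _ ((KK (k + 1)).inv_mem hK) b
        have e : b * (a⁻¹ * b)⁻¹ = a := by group
        rw [e, inv_inv] at h1
        have h2 := hpos _ hK
        have h3 : 0 < g a := by rw [h1]; positivity
        show 0 < f a + g a
        linarith
      · intro h' hh'; show f h' + g h' = 0; rw [ha3 h' hh', hb3 h' hh']; ring
      · intro h' hr
        have h1 : QQ k (b⁻¹ * h') := by
          have := QQ_mulL ((KK (k + 1)).inv_mem hK) hr
          have e : (a⁻¹ * b)⁻¹ * (a⁻¹ * h') = b⁻¹ * h' := by group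
          rwa [e] at this
        show f h' + g h' = 0
        rw [ha4 h' hr, hb4 h' h1]; ring
    · rcases QQ_total (by simp; omega) hK with hQ | hQ
      · refine ⟨b, hb1, ?_, ?_, ?_⟩
        · show 0 < f b + g b; rw [ha4 b hQ]; simpa using hb2
        · intro h' hh'; show f h' + g h' = 0; rw [ha3 h' hh', hb3 h' hh']; ring
        · intro h' hr
          have h1 : QQ k (a⁻¹ * h') := by
            have := QQ_mul hQ hr
            have e : a⁻¹ * b * (b⁻¹ * h') = a⁻¹ * h' := by group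
            rwa [e] at this
          show f h' + g h' = 0
          rw [ha4 h' h1, hb4 h' hr]; ring
      · have hQ' : QQ k (b⁻¹ * a) := by
          have e : (a⁻¹ * b)⁻¹ = b⁻¹ * a := by group
          rwa [e] at hQ
        refine ⟨a, ha1, ?_, ?_, ?_⟩
        · show 0 < f a + g a; rw [hb4 a hQ']; simpa using ha2
        · intro h' hh'; show f h' + g h' = 0; rw [ha3 h' hh', hb3 h' hh']; ring
        · intro h' hr
          have h1 : QQ k (b⁻¹ * h') := by
            have := QQ_mul hQ' hr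
            have e : b⁻¹ * a * (a⁻¹ * h') = b⁻¹ * h' := by group
            rwa [e] at this
          show f h' + g h' = 0
          rw [ha4 h' hr, hb4 h' h1]; ring
  · rw [max_eq_left hij.le]
    refine ⟨a, ha1, ?_, ?_, ?_⟩
    · show 0 < f a + g a; rw [hb3 a (by omega)]; simpa using ha2
    · intro h' hh'; show f h' + g h' = 0; rw [hb3 h' (by omega), ha3 h' hh']; ring
    · intro h' hr
      have := hQdg hr
      show f h' + g h' = 0
      rw [hb3 h' (by omega), ha4 h' hr]; ring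

lemma posF_congr {i : ℤ} {f g : F → ℝ} (hf : posF k i f) (h : ∀ h, i ≤ dg h → f h = g h) :
    posF k i g := by
  obtain ⟨a, ha1, ha2, ha3, ha4⟩ := hf
  refine ⟨a, ha1, ?_, ?_, ?_⟩
  · rw [← h a (by omega)]; exact ha2
  · intro h' hh'; rw [← h h' (by omega)]; exact ha3 h' hh'
  · intro h' hr
    have := hr.1
    simp at this
    rw [← h h' (by omega)]; exact ha4 h' hr

lemma posF_total (hc : Ch (KK (k + 1)) χ) (hpos : ∀ w ∈ KK (k + 1), 0 < χ w) {w : F}
    (hex : ∃ h, D (dl (KK (k + 1)) χ) w h ≠ 0) :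
    ∃ i, posF k i (D (dl (KK (k + 1)) χ) w) ∨ posF k i (fun h => - D (dl (KK (k + 1)) χ) w h) := by
  classical
  set f := D (dl (KK (k + 1)) χ) w with hf
  set T : Finset F := (fox w).support.filter (fun g => f g ≠ 0) with hT
  have key : ∀ h, f h ≠ 0 → ∃ g ∈ T, g⁻¹ * h ∈ KK (k + 1) := by
    intro h hne
    obtain ⟨g, hg, hg'⟩ := exists_of_D_ne_zero _ _ _ hne
    have h1 := dl_ne_zero hg'
    refine ⟨g, ?_, h1⟩
    rw [hT, Finset.mem_filter]
    refine ⟨hg, ?_⟩
    have h2 := D_mulR hc ((KK (k + 1)).inv_mem h1) w h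
    have e : h * (g⁻¹ * h)⁻¹ = g := by group
    rw [e, inv_inv, ← hf] at h2
    rw [h2]
    exact mul_ne_zero (hpos _ h1).ne' hne
  obtain ⟨h0, hne0⟩ := hex
  obtain ⟨g0, hg0, _⟩ := key h0 hne0
  let lt : T → T → Prop := fun x y => dg (y : F) < dg (x : F) ∨ QQ k ((y : F)⁻¹ * (x : F))
  have htr : IsTrans T lt := ⟨by
    rintro x y z (h1 | h1) (h2 | h2)
    · left; exact h2.trans h1
    · left; have := h2.1; simp at this; omega
    · left; have := h1.1; simp at this; omega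
    · right
      have := QQ_mul h2 h1
      have e : (z : F)⁻¹ * y * ((y : F)⁻¹ * x) = (z : F)⁻¹ * x := by group
      rwa [e] at this⟩
  have hirr : Std.Irrefl lt := ⟨by
    rintro x (h1 | h1)
    · omega
    · apply QQ_not_mem h1
      simp [(KK (k + 1)).one_mem]⟩
  have hwf : WellFounded lt := Finite.wellFounded_of_trans_of_irrefl lt
  set a := hwf.min Set.univ ⟨⟨g0, hg0⟩, trivial⟩ with ha
  have hmin : ∀ x : T, ¬ lt x a := fun x => hwf.not_lt_min Set.univ (x := x) trivial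
  have ha1 : f a ≠ 0 := (Finset.mem_filter.1 a.2).2
  have ha3 : ∀ h', dg (a : F) < dg h' → f h' = 0 := by
    intro h' hh'
    by_contra hcon
    obtain ⟨g, hg, hg'⟩ := key h' hcon
    apply hmin ⟨g, hg⟩
    left
    have := (KK_Lv (k + 1)).deg0 _ hg'
    simp at this
    show dg (a : F) < dg g
    omega
  have ha4 : ∀ h', QQ k ((a : F)⁻¹ * h') → f h' = 0 := by
    intro h' hr
    by_contra hcon
    obtain ⟨g, hg, hg'⟩ := key h' hcon
    apply hmin ⟨g, hg⟩
    right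
    have := QQ_mulR ((KK (k + 1)).inv_mem hg') hr
    have e : (a : F)⁻¹ * h' * (g⁻¹ * h')⁻¹ = (a : F)⁻¹ * g := by group
    rwa [e] at this
  refine ⟨dg (a : F), ?_⟩
  rcases lt_or_gt_of_ne ha1 with hlt | hgt
  · right
    refine ⟨a, rfl, by simpa using hlt, ?_, ?_⟩
    · intro h' hh'; show - f h' = 0; rw [ha3 h' hh']; simp
    · intro h' hr; show - f h' = 0; rw [ha4 h' hr]; simp
  · left
    exact ⟨a, rfl, hgt, ha3, ha4⟩

/-- tower property of the final layer -/
lemma inN_of_D_zero (hs : Spec (KK (k + 1)) χ th) {i : ℤ} {w : F} (h0 : dg w = 0)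
    (h : ∀ h', i < dg h' → D (dl (KK (k + 1)) χ) w h' = 0) : inN (KK (k + 1)) i w := by
  refine inN_Knext.2 ⟨h0, fun h' hh' => ?_⟩
  apply push (KK_succ_le k) (KK_Ch k).mul (Spec_refl _ _)
  intro κ hκ
  apply push le_rfl (KK_Ch (k + 1)).mul hs
  intro κ' hκ'
  apply h
  have h1 := (KK_Lv k).deg0 _ hκ
  have h2 := (KK_Lv (k + 1)).deg0 _ hκ'
  simp [h1, h2, hh']

theorem Ordb_final (hc : Ch (KK (k + 1)) χ) (hpos : ∀ w ∈ KK (k + 1), 0 < χ w)
    (hs : Spec (KK (k + 1)) χ th) : Ordb (RR (Knext (dl (KK (k + 1)) χ))) := by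
  have hKL := KK_Lv (k + 1)
  have hin : ∀ {i : ℤ} {w : F}, dg w = 0 → posF k i (D (dl (KK (k + 1)) χ) w) →
      inN (KK (k + 1)) i w := by
    intro i w h0 h
    obtain ⟨a, ha1, ha2, ha3, ha4⟩ := h
    exact inN_of_D_zero hs h0 ha3
  refine ⟨{w | 0 < dg w ∨ (dg w = 0 ∧ ∃ i, posF k i (D (dl (KK (k + 1)) χ) w))}, ?_, ?_, ?_, ?_⟩
  · rintro v (hv | ⟨hv, i, hvi⟩) w (hw | ⟨hw, j, hwj⟩)
    · left; simp; omega
    · left; simp; omega
    · left; simp; omega
    · right
      refine ⟨by simp [hv, hw], max i j, ?_⟩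
      apply posF_congr (posF_add hpos (fun κ hκ h => D_mulR hc hκ v h)
        (fun κ hκ h => D_mulR hc hκ w h) hvi hwj)
      intro h hh
      rw [D_mul, D_triv hKL hc (hin hv hvi) (by omega)]
  · rintro w (hw | ⟨hw, i, hwi⟩) g
    · left; simpa using hw
    · right
      refine ⟨by simp [hw], i + dg g, ?_⟩
      have h1 : posF k (i + dg g) (fun h' => D (dl (KK (k + 1)) χ) w (g⁻¹ * h')) := by
        obtain ⟨a, ha1, ha2, ha3, ha4⟩ := hwi
        refine ⟨g * a, by simp [ha1]; ring, ?_, ?_, ?_⟩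
        · simpa using ha2
        · intro h' hh'; apply ha3; simp; omega
        · intro h' hr
          apply ha4
          have e : (g * a)⁻¹ * h' = a⁻¹ * (g⁻¹ * h') := by group
          rwa [e] at hr
      apply posF_congr h1
      intro h hh
      rw [D_conj, D_triv hKL hc (inN_conj hKL (hin hw hwi) g) hh]
      ring
  · intro w hw
    rcases lt_trichotomy (dg w) 0 with h | h | h
    · right; left; simpa using h
    · have hex : ∃ h, D (dl (KK (k + 1)) χ) w h ≠ 0 := by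
        by_contra hcon
        push Not at hcon
        exact hw (mem_RR_Knext.2 ⟨h, hcon⟩)
      obtain ⟨i, hi | hi⟩ := posF_total hc hpos hex
      · left; right; exact ⟨h, i, hi⟩
      · right; right
        refine ⟨by simp [h], i, ?_⟩
        apply posF_congr hi
        intro h' hh'
        have h1 : inN (KK (k + 1)) i w := by
          obtain ⟨a, ha1, ha2, ha3, ha4⟩ := hi
          exact inN_of_D_zero hs h (fun h'' hh'' => by simpa using ha3 h'' hh'')
        have h2 := D_triv hKL hc (inN_inv h1) hh' w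
        rw [inv_inv] at h2
        rw [D_inv, h2]
    · left; left; exact h
  · rintro w (hw | ⟨hw, i, a, ha1, ha2, ha3, ha4⟩) hcon
    · have := (mem_RR_Knext.1 hcon).1
      omega
    · have := (mem_RR_Knext.1 hcon).2 a
      linarith

end final

end Pool.Agent.helper52.OS
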