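import Pool.Agent.helper52.OSLevel

/-!
The push-forward (coset summation) lemma.
-/

namespace Pool.Agent.helper52.OS

open Finset

open Classical in
lemma D_form {R : Type*} [CommRing R] (K : Subgroup F) (χ : F → R) (w h : F) :
    D (dl K χ) w h = ∑ g ∈ (fox w).support with h⁻¹ * g ∈ K, (fox w g) • χ (h⁻¹ * g) := by
  rw [D, Finsupp.sum, Finset.sum_filter]
  apply Finset.sum_congr rfl
  intro g _
  unfold dl
  have e : (g⁻¹ * h ∈ K) ↔ (h⁻¹ * g ∈ K) := by
    rw [← K.inv_mem_iff]; simp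
  by_cases hg : h⁻¹ * g ∈ K
  · rw [if_pos hg, if_pos (e.2 hg)]; simp
  · rw [if_neg hg, if_neg (fun h => hg (e.1 h)), smul_zero]

/-- specialisation condition between two characters -/
def Spec {R S : Type*} [CommRing R] [CommRing S] (K' : Subgroup F) (χ' : F → R) (χ : F → S) :
    Prop :=
  ∀ (s : Finset F) (n : F → ℤ) (f : F → F), (∀ x ∈ s, f x ∈ K') →
    ∑ x ∈ s, n x • χ' (f x) = 0 → ∑ x ∈ s, n x • χ (f x) = 0

lemma push {R S : Type*} [CommRing R] [CommRing S] {K' K : Subgroup F} {χ' : F → R} {χ : F → S}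
    (hle : K' ≤ K) (hc : ∀ x ∈ K, ∀ y ∈ K, χ (x * y) = χ x * χ y) (hs : Spec K' χ' χ) (w h : F)
    (h0 : ∀ κ ∈ K, D (dl K' χ') w (h * κ) = 0) : D (dl K χ) w h = 0 := by
  classical
  rw [D_form, Finset.sum_partition (QuotientGroup.leftRel K')]
  apply Finset.sum_eq_zero
  intro xbar hx
  obtain ⟨g0, hg0, rfl⟩ := Finset.mem_image.1 hx
  rw [Finset.mem_filter] at hg0
  have h1 := h0 (h⁻¹ * g0) hg0.2
  rw [mul_inv_cancel_left, D_form] at h1
  have h2 := hs _ _ (fun y => g0⁻¹ * y) (fun x hx => (Finset.mem_filter.1 hx).2) h1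
  have hset : (Finset.filter (fun y => (⟦y⟧ : Quotient (QuotientGroup.leftRel K')) = ⟦g0⟧)
      (Finset.filter (fun g => h⁻¹ * g ∈ K) (fox w).support))
      = Finset.filter (fun y => g0⁻¹ * y ∈ K') (fox w).support := by
    ext y
    simp only [Finset.mem_filter]
    have hr : ((⟦y⟧ : Quotient (QuotientGroup.leftRel K')) = ⟦g0⟧) ↔ g0⁻¹ * y ∈ K' := by
      rw [Quotient.eq, QuotientGroup.leftRel_apply, ← K'.inv_mem_iff]; simp
    rw [hr]
    constructor
    · rintro ⟨⟨h1, h2⟩, h3⟩; exact ⟨h1, h3⟩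
    · rintro ⟨h1, h3⟩
      refine ⟨⟨h1, ?_⟩, h3⟩
      have := K.mul_mem hg0.2 (hle h3)
      have e : h⁻¹ * g0 * (g0⁻¹ * y) = h⁻¹ * y := by group
      rwa [e] at this
  rw [hset]
  have h3 : ∑ y ∈ (fox w).support with g0⁻¹ * y ∈ K', (fox w y) • χ (h⁻¹ * y)
      = χ (h⁻¹ * g0) * ∑ y ∈ (fox w).support with g0⁻¹ * y ∈ K', (fox w y) • χ (g0⁻¹ * y) := by
    rw [Finset.mul_sum]
    apply Finset.sum_congr rfl
    intro y hy
    rw [Finset.mem_filter] at hy
    rw [mul_smul_comm, ← hc _ hg0.2 _ (hle hy.2)]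
    congr 2
    group
  rw [h3, h2, mul_zero]

end Pool.Agent.helper52.OS
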