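import Pool.Agent.helper52.OSOrder

/-!
Relations modulo the kernel, maximal kernels, and the unique convex subgroup.
-/

namespace Pool.Agent.helper52.OS

open Finset

/-- `x` has a scalar Fox image -/
def Sc {R : Type*} [CommRing R] (K : Subgroup F) (χ : F → R) (s : R) (x : F) : Prop :=
  inN K 0 x ∧ ∀ h, D (dl K χ) x h = s * dl K χ h

section Sc
variable {R : Type*} [CommRing R] {K : Subgroup F} {χ : F → R}

lemma mem_of_inN_zero (hK : Lv K) {x : F} (hx : inN K 0 x) : x ∈ K :=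
  inN_one.1 (inN_mono hK hx (by norm_num))

lemma chi_of_inN_zero (hc : Ch K χ) {x : F} (hx : inN K 0 x) : χ x = 1 := by
  unfold inN at hx
  have := hc.triv _ hx
  have e : gu⁻¹ * (gu ^ (1 - 0 : ℤ) * x * (gu ^ (1 - 0 : ℤ))⁻¹) * gu = x := by group
  rwa [e] at this

lemma dl_of_inN_zero (hK : Lv K) (hc : Ch K χ) {x : F} (hx : inN K 0 x) (h : F) :
    dl K χ (x⁻¹ * h) = dl K χ h := by
  rw [dl_mulL hc (mem_of_inN_zero hK hx), chi_of_inN_zero hc hx, one_mul]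

lemma Sc_mul (hK : Lv K) (hc : Ch K χ) {s t : R} {x y : F} (hx : Sc K χ s x) (hy : Sc K χ t y) :
    Sc K χ (s + t) (x * y) := by
  refine ⟨inN_mem_mul hx.1 hy.1, fun h => ?_⟩
  rw [D_mul, hx.2, hy.2, dl_of_inN_zero hK hc hx.1, add_mul]

lemma Sc_inv (hK : Lv K) (hc : Ch K χ) {s : R} {x : F} (hx : Sc K χ s x) :
    Sc K χ (-s) x⁻¹ := by
  refine ⟨inN_inv hx.1, fun h => ?_⟩
  have := dl_of_inN_zero hK hc (inN_inv hx.1) h
  rw [inv_inv] at this
  rw [D_inv, hx.2, this, neg_mul]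

lemma Sc_conj (hK : Lv K) (hc : Ch K χ) {s : R} {x g : F} (hx : Sc K χ s x) (hg : g ∈ Lge 1)
    (hgK : g ∈ K) : Sc K χ (χ g * s) (g * x * g⁻¹) := by
  have hg0 := hK.deg0 _ hgK
  have h1 : inN K 0 (g * x * g⁻¹) := by
    have := inN_conj hK hx.1 g
    rwa [hg0, add_zero] at this
  refine ⟨h1, fun h => ?_⟩
  have h2 : D (dl K χ) g ((g * x * g⁻¹)⁻¹ * h) = D (dl K χ) g h := by
    rcases lt_or_ge (dg h) 0 with hh | hh
    · have hd : dg ((g * x * g⁻¹)⁻¹ * h) = dg h := by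
        rw [dg_mul, dg_inv, inN_deg hK h1]; ring
      rw [D_of_Lge hK χ hg (h := (g * x * g⁻¹)⁻¹ * h) (by omega),
        D_of_Lge hK χ hg (h := h) (by omega)]
    · exact D_triv hK hc h1 hh g
  rw [D_conj, h2, hx.2, dl_mulL hc hgK]
  ring

lemma Sc_eq (hK : Lv K) (hc : Ch K χ) {s : R} {x y : F} (hx : Sc K χ s x) (hy : Sc K χ s y) :
    x * y⁻¹ ∈ RR (Knext (dl K χ)) := by
  have h := Sc_mul hK hc hx (Sc_inv hK hc hy)
  rw [mem_RR_Knext]
  refine ⟨inN_deg hK h.1, fun h' => ?_⟩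
  rw [h.2]
  ring

lemma inN_ga (h1 : gen 1 ∈ K) : inN K 0 ga := by
  unfold inN
  have e : gu ^ (1 - 0 : ℤ) * ga * (gu ^ (1 - 0 : ℤ))⁻¹ = gen 1 := by
    unfold gen; norm_num
  rwa [e]

lemma Sc_ga (h1 : gen 1 ∈ K) : Sc K χ 1 ga :=
  ⟨inN_ga h1, fun h => by rw [D_ga, one_mul]⟩

/-- the element `b₀` -/
def b0 : F := ga * (gen 1 * ga * (gen 1)⁻¹)

lemma Sc_b0 (hK : Lv K) (hc : Ch K χ) (h1 : gen 1 ∈ K) : Sc K χ (1 + χ (gen 1)) b0 := by
  have := Sc_mul hK hc (Sc_ga (χ := χ) h1)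
    (Sc_conj hK hc (Sc_ga h1) (gen_mem_Lge le_rfl) h1)
  rwa [mul_one] at this

end Sc

lemma dg_b0 : dg b0 = 0 := by simp [b0]

lemma b0_mem_RR (k : ℕ) : b0 ∈ RR (KK (k + 1)) := by
  have h := Sc_b0 (KK_Lv k) (KK_Ch k) (gen_one_mem' k)
  rw [show KK (k + 1) = Knext (dl (KK k) th) from rfl, mem_RR_Knext]
  refine ⟨dg_b0, fun h' => ?_⟩
  rw [h.2, th_gen_one]
  ring

section rel
variable {k : ℕ} {χ : F → ℝ}

lemma b0_not_mem (hc : Ch (KK (k + 1)) χ) (hpos : ∀ w ∈ KK (k + 1), 0 < χ w) :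
    b0 ∉ RR (Knext (dl (KK (k + 1)) χ)) := by
  intro h
  rw [mem_RR_Knext] at h
  have h1 := h.2 1
  rw [(Sc_b0 (KK_Lv (k + 1)) hc (gen_one_mem k)).2, dl_one hc] at h1
  have := hpos _ (gen_one_mem k)
  linarith

lemma comm_b0 (hc : Ch (KK (k + 1)) χ) {g : F} (hg : inN (KK (k + 1)) 0 g) :
    g * b0 * g⁻¹ * b0⁻¹ ∈ RR (Knext (dl (KK (k + 1)) χ)) := by
  have hK := KK_Lv (k + 1)
  have hg0 := inN_deg hK hg
  have hb := b0_mem_RR k
  have hb1 : ∀ j, inN (KK (k + 1)) j (g * b0 * g⁻¹) := by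
    intro j
    have := inN_conj hK (hb j) g
    rwa [hg0, add_zero] at this
  have hb2 : ∀ j, inN (KK (k + 1)) j (g * b0 * g⁻¹ * b0⁻¹) := fun j =>
    inN_mem_mul (hb1 j) (inN_inv (hb j))
  rw [mem_RR_Knext]
  refine ⟨by simp [hg0], fun h => ?_⟩
  rw [D_comm, D_triv hK hc (hb1 (dg h)) le_rfl, D_triv hK hc (hb2 (dg h)) le_rfl,
    (Sc_b0 hK hc (gen_one_mem k)).2, (Sc_b0 hK hc (gen_one_mem k)).2, dl_of_inN_zero hK hc hg]
  ring

lemma exists_shift (k : ℕ) {w : F} (hw : dg w = 0) :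
    ∃ m : ℤ, inN (KK (k + 1)) 0 (gu ^ m * w * (gu ^ m)⁻¹) := by
  obtain ⟨N, hN⟩ := D_bdd (KK_Lv k) th w
  refine ⟨-N, ?_⟩
  rw [show KK (k + 1) = Knext (dl (KK k) th) from rfl, inN_Knext]
  refine ⟨by simp [hw], fun h hh => ?_⟩
  rw [D_conj_gu]
  by_contra hne
  have := hN _ hne
  simp at this
  omega

end rel

/-! ### cones -/

section cone
variable {M : Subgroup F}

lemma Ordb.normal (h : Ordb M) : M.Normal := by
  obtain ⟨P, h1, h2, h3, h4⟩ := h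
  constructor
  intro n hn g
  by_contra hcon
  rcases h3 _ hcon with h | h
  · have := h2 _ h g⁻¹
    have e : g⁻¹ * (g * n * g⁻¹) * g⁻¹⁻¹ = n := by group
    rw [e] at this
    exact h4 _ this hn
  · have := h2 _ h g⁻¹
    have e : g⁻¹ * (g * n * g⁻¹)⁻¹ * g⁻¹⁻¹ = n⁻¹ := by group
    rw [e] at this
    exact h4 _ this (M.inv_mem hn)

/-- if `x · g x g⁻¹` is trivial then so is `x` -/
lemma Ordb.of_conj_mul (h : Ordb M) {x g : F} (hx : x * (g * x * g⁻¹) ∈ M) : x ∈ M := by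
  obtain ⟨P, h1, h2, h3, h4⟩ := h
  by_contra hcon
  rcases h3 _ hcon with h | h
  · exact h4 _ (h1 _ h _ (h2 _ h g)) hx
  · have h5 := h1 _ (h2 _ h g) _ h
    have e : g * x⁻¹ * g⁻¹ * x⁻¹ = (x * (g * x * g⁻¹))⁻¹ := by group
    rw [e] at h5
    exact h4 _ h5 (M.inv_mem hx)

lemma cone_pow {P : Set F} (h1 : ∀ x ∈ P, ∀ y ∈ P, x * y ∈ P) {x : F} (hx : x ∈ P) (n : ℕ) :
    x ^ (n + 1) ∈ P := by
  induction n with
  | zero => simpa using hx
  | succ n ih => rw [pow_succ]; exact h1 _ ih _ hx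

lemma Ordb.of_zpow (h : Ordb M) {x : F} {r : ℤ} (hr : r ≠ 0) (hx : x ^ r ∈ M) : x ∈ M := by
  obtain ⟨P, h1, h2, h3, h4⟩ := h
  have key : ∀ n : ℕ, n ≠ 0 → x ^ n ∈ M → x ∈ M := by
    intro n hn hx
    obtain ⟨n, rfl⟩ := Nat.exists_eq_succ_of_ne_zero hn
    by_contra hcon
    rcases h3 _ hcon with h | h
    · exact h4 _ (cone_pow h1 h n) hx
    · have := h4 _ (cone_pow h1 h n)
      rw [inv_pow] at this
      exact this (M.inv_mem hx)
  obtain ⟨m, rfl | rfl⟩ := r.eq_nat_or_neg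
  · exact key m (by simpa using hr) (by simpa using hx)
  · apply key m (by simpa using hr)
    have := M.inv_mem hx
    simpa using this

/-- commuting with a nonzero power implies commuting -/
lemma Ordb.comm_of_zpow (h : Ordb M) {x y : F} {r : ℤ} (hr : r ≠ 0)
    (hx : x ^ r * y * (x ^ r)⁻¹ * y⁻¹ ∈ M) : x * y * x⁻¹ * y⁻¹ ∈ M := by
  have hn := h.normal
  -- `z = y x y⁻¹`, then `z ^ r ≡ x ^ r`
  obtain ⟨P, h1, h2, h3, h4⟩ := h
  have key : ∀ (x : F) (n : ℕ), n ≠ 0 → x ^ n * y * (x ^ n)⁻¹ * y⁻¹ ∈ M →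
      x * y * x⁻¹ * y⁻¹ ∈ M := by
    intro x n hn0 hx
    by_contra hcon
    have prod : ∀ n : ℕ, x ^ (n + 1) * y * (x ^ (n + 1))⁻¹ * y⁻¹
        = x * (x ^ n * y * (x ^ n)⁻¹ * y⁻¹) * x⁻¹ * (x * y * x⁻¹ * y⁻¹) := by
      intro n
      rw [pow_succ']
      group
    rcases h3 _ hcon with h | h
    · have : ∀ n : ℕ, x ^ (n + 1) * y * (x ^ (n + 1))⁻¹ * y⁻¹ ∈ P := by
        intro n
        induction n with
        | zero => simpa using h
        | succ n ih => rw [prod]; exact h1 _ (h2 _ ih x) _ h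
      obtain ⟨n, rfl⟩ := Nat.exists_eq_succ_of_ne_zero hn0
      exact h4 _ (this n) hx
    · have : ∀ n : ℕ, (x ^ (n + 1) * y * (x ^ (n + 1))⁻¹ * y⁻¹)⁻¹ ∈ P := by
        intro n
        induction n with
        | zero => simpa using h
        | succ n ih =>
          rw [prod, mul_inv_rev]
          have e : (x * (x ^ (n + 1) * y * (x ^ (n + 1))⁻¹ * y⁻¹) * x⁻¹)⁻¹
            = x * (x ^ (n + 1) * y * (x ^ (n + 1))⁻¹ * y⁻¹)⁻¹ * x⁻¹ := by group
          rw [e]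
          exact h1 _ h _ (h2 _ ih x)
      obtain ⟨n, rfl⟩ := Nat.exists_eq_succ_of_ne_zero hn0
      exact h4 _ (this n) (M.inv_mem hx)
  obtain ⟨m, rfl | rfl⟩ := r.eq_nat_or_neg
  · exact key x m (by simpa using hr) (by simpa using hx)
  · have h5 := key x⁻¹ m (by simpa using hr) (by simpa using hx)
    have h6 := hn.conj_mem _ (M.inv_mem h5) x
    have e : x * (x⁻¹ * y * x⁻¹⁻¹ * y⁻¹)⁻¹ * x⁻¹ = x * y * x⁻¹ * y⁻¹ := by group
    rwa [e] at h6

end cone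

/-! ### Zorn -/

lemma Ordb_sSup {c : Set (Subgroup F)} (hc : IsChain (· ≤ ·) c) (hne : c.Nonempty)
    (h : ∀ M ∈ c, Ordb M) : Ordb (sSup c) := by
  classical
  have hdir : DirectedOn (· ≤ ·) c := hc.directedOn
  have hmem : ∀ x, x ∈ sSup c ↔ ∃ M ∈ c, x ∈ M := fun x => Subgroup.mem_sSup_of_directedOn hne hdir
  choose! P h1 h2 h3 h4 using h
  have : Nonempty c := hne.to_subtype
  have : IsDirectedOrder c := ⟨fun x y => by
    obtain ⟨z, hz, hxz, hyz⟩ := hdir x.1 x.2 y.1 y.2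
    exact ⟨⟨z, hz⟩, hxz, hyz⟩⟩
  let U : Ultrafilter c := Ultrafilter.of Filter.atTop
  have hU : (U : Filter c) ≤ Filter.atTop := Ultrafilter.of_le _
  refine ⟨{x | ∀ᶠ M in (U : Filter c), x ∈ P M.1}, ?_, ?_, ?_, ?_⟩
  · intro x hx y hy
    filter_upwards [hx, hy] with M hxM hyM
    exact h1 M.1 M.2 x hxM y hyM
  · intro x hx g
    filter_upwards [hx] with M hxM
    exact h2 M.1 M.2 x hxM g
  · intro x hx
    rw [hmem] at hx
    push Not at hx
    have : ∀ᶠ M in (U : Filter c), x ∈ P M.1 ∨ x⁻¹ ∈ P M.1 :=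
      Filter.Eventually.of_forall fun M => h3 M.1 M.2 x (hx M.1 M.2)
    exact Ultrafilter.eventually_or.1 this
  · intro x hx hcon
    rw [hmem] at hcon
    obtain ⟨M0, hM0, hxM0⟩ := hcon
    have h5 : ∀ᶠ M in (U : Filter c), (⟨M0, hM0⟩ : c) ≤ M := hU (Filter.eventually_ge_atTop _)
    obtain ⟨M, hM1, hM2⟩ := (hx.and h5).exists
    exact h4 M.1 M.2 x hM1 (hM2 hxM0)

/-- a maximal orderable kernel avoiding `b₀` -/
lemma exists_max {R0 : Subgroup F} (hR : Ordb R0) (hb : b0 ∉ R0) :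
    ∃ M, R0 ≤ M ∧ Ordb M ∧ b0 ∉ M ∧ ∀ H, Ordb H → b0 ∉ H → M ≤ H → H = M := by
  obtain ⟨M, hRM, hM⟩ := zorn_le_nonempty₀ {M : Subgroup F | Ordb M ∧ b0 ∉ M} (by
    intro c hcs hchain y hy
    refine ⟨sSup c, ⟨Ordb_sSup hchain ⟨y, hy⟩ fun M hM => (hcs hM).1, ?_⟩,
      fun z hz => le_sSup hz⟩
    intro hcon
    rw [Subgroup.mem_sSup_of_directedOn ⟨y, hy⟩ hchain.directedOn] at hcon
    obtain ⟨M, hM, hM'⟩ := hcon
    exact (hcs hM).2 hM') R0 ⟨hR, hb⟩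
  exact ⟨M, hRM, hM.prop.1, hM.prop.2, fun H hH hbH hle => le_antisymm (hM.2 ⟨hH, hbH⟩ hle) hle⟩

lemma Ordb_LL : Ordb LL := by
  refine ⟨{w | 0 < dg w}, ?_, ?_, ?_, ?_⟩
  · intro x hx y hy
    simp only [Set.mem_ofPred_eq, dg_mul] at *
    omega
  · intro x hx g
    simp only [Set.mem_ofPred_eq, dg_mul, dg_inv] at *
    omega
  · intro x hx
    rw [mem_LL] at hx
    simp only [Set.mem_ofPred_eq, dg_inv]
    omega
  · intro x hx hcon
    rw [mem_LL] at hcon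
    simp only [Set.mem_ofPred_eq] at hx
    omega

/-- if `a` is in the normal subgroup `H` then modulo `H` each `w` is `u ^ dg w` -/
lemma mod_of_ga {H : Subgroup F} (hn : H.Normal) (ha : ga ∈ H) (w : F) :
    (gu ^ dg w)⁻¹ * w ∈ H := by
  have h1 : (QuotientGroup.mk' H) = (zpowersHom (F ⧸ H) (QuotientGroup.mk' H gu)).comp degHom := by
    apply FreeGroup.ext_hom
    intro i
    fin_cases i
    · have : QuotientGroup.mk' H ga = 1 := (QuotientGroup.eq_one_iff ga).2 ha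
      simpa [degHom, ga] using this
    · simp [degHom, gu]
  have h2 := DFunLike.congr_fun h1 w
  rw [← QuotientGroup.eq_one_iff, QuotientGroup.mk_mul, QuotientGroup.mk_inv,
    QuotientGroup.mk_zpow]
  have h3 : (QuotientGroup.mk' H) w = (QuotientGroup.mk' H gu) ^ dg w := by
    rw [h2]
    simp [zpowersHom_apply, dg]
  change ((QuotientGroup.mk' H gu) ^ dg w)⁻¹ * (QuotientGroup.mk' H) w = 1
  rw [h3, inv_mul_cancel]

/-- orderable quotients above `M` -/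
lemma eq_LL_of_b0 {H : Subgroup F} (hH : Ordb H) (hb : b0 ∈ H) (hT : H ≠ ⊤) : H = LL := by
  have hn := hH.normal
  have ha : ga ∈ H := hH.of_conj_mul hb
  have hmod := mod_of_ga hn ha
  apply le_antisymm
  · intro x hx
    rw [mem_LL]
    by_contra hne
    apply hT
    have h1 : gu ^ dg x ∈ H := by
      have := H.mul_mem hx (H.inv_mem (hmod x))
      have e : x * ((gu ^ dg x)⁻¹ * x)⁻¹ = gu ^ dg x := by group
      rwa [e] at this
    have h2 := hH.of_zpow hne h1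
    rw [eq_top_iff]
    intro w _
    have := H.mul_mem (H.zpow_mem h2 (dg w)) (hmod w)
    rwa [mul_inv_cancel_left] at this
  · intro x hx
    rw [mem_LL] at hx
    have := hmod x
    rw [hx] at this
    simpa using this

end Pool.Agent.helper52.OS
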