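import Pool.Agent.helper52.OSPush

/-!
The sign character, the tower of level subgroups, and solubility.
-/

namespace Pool.Agent.helper52.OS

open Finset

lemma Lv_LL : Lv LL where
  deg0 w hw := mem_LL.1 hw
  norm v _ w hw := by
    rw [mem_LL] at *
    simp [hw]
  shift w hw := by
    rw [mem_LL] at *
    simp [hw]

lemma Ch_LL (R : Type*) [CommRing R] : Ch LL (fun _ => (1 : R)) where
  one := rfl
  mul _ _ _ _ := by simp
  triv _ _ := rfl

lemma inN_LL {j : ℤ} {w : F} : inN LL j w ↔ dg w = 0 := by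
  unfold inN
  rw [mem_LL]
  constructor
  · intro h; simp at h; omega
  · intro h; simp; omega

/-- signed number of occurrences of the level one generator -/
noncomputable def cnt (w : F) : ℤ := D (dl LL (fun _ => (1 : ℤ))) w gu

lemma cnt_mul {v w : F} (hv : dg v = 0) : cnt (v * w) = cnt v + cnt w := by
  unfold cnt
  rw [D_mul, D_triv Lv_LL (Ch_LL ℤ) (j := 1) (inN_LL.2 hv) (by simp)]

@[simp] lemma cnt_one : cnt 1 = 0 := by simp [cnt]

/-- the sign character -/
noncomputable def th (w : F) : ℤ := ((cnt w).negOnePow : ℤˣ)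

@[simp] lemma th_one : th 1 = 1 := by simp [th]

lemma th_mul {v w : F} (hv : dg v = 0) : th (v * w) = th v * th w := by
  unfold th
  rw [cnt_mul hv, Int.negOnePow_add]
  simp

lemma th_cases (w : F) : th w = 1 ∨ th w = -1 := by
  unfold th
  rcases Int.even_or_odd (cnt w) with h | h
  · left; rw [Int.negOnePow_even _ h]; rfl
  · right; rw [Int.negOnePow_odd _ h]; rfl

lemma th_eq_one_of_even {w : F} (h : Even (cnt w)) : th w = 1 := by
  unfold th
  rw [Int.negOnePow_even _ h]; rfl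

lemma even_of_th_eq_one {w : F} (h : th w = 1) : Even (cnt w) := by
  rcases Int.even_or_odd (cnt w) with h' | h'
  · exact h'
  · exfalso
    unfold th at h
    rw [Int.negOnePow_odd _ h'] at h
    norm_num at h

/-- The tower. -/
noncomputable def KK : ℕ → Subgroup F
  | 0 => Knext (dl LL (fun _ => (1 : ZMod 2)))
  | (k + 1) => Knext (dl (KK k) th)

lemma D_map {R S : Type*} [CommRing R] [CommRing S] (f : R →+* S) (K : Subgroup F) (χ : F → R)
    (w h : F) : f (D (dl K χ) w h) = D (dl K (fun x => f (χ x))) w h := by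
  classical
  rw [D_form, D_form, map_sum]
  apply Finset.sum_congr rfl
  intro g _
  simp

lemma D_mod_two (w h : F) :
    ((D (dl LL (fun _ => (1 : ℤ))) w h : ℤ) : ZMod 2) = D (dl LL (fun _ => (1 : ZMod 2))) w h := by
  have := D_map (Int.castRingHom (ZMod 2)) LL (fun _ => (1 : ℤ)) w h
  simpa using this

lemma th_triv {w : F} (hw : w ∈ KK 0) : th (gu⁻¹ * w * gu) = 1 := by
  apply th_eq_one_of_even
  have h1 : cnt (gu⁻¹ * w * gu) = D (dl LL (fun _ => (1 : ℤ))) w (gu * gu) := by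
    unfold cnt
    have := D_conj_gu (dl LL (fun _ => (1 : ℤ))) (-1) w gu
    simpa using this
  have h2 : ((cnt (gu⁻¹ * w * gu) : ℤ) : ZMod 2) = 0 := by
    rw [h1, D_mod_two]
    exact hw.2 _ (by simp)
  rw [ZMod.intCast_zmod_eq_zero_iff_dvd] at h2
  exact even_iff_two_dvd.2 (by exact_mod_cast h2)

lemma Spec_refl {R : Type*} [CommRing R] (K : Subgroup F) (χ : F → R) : Spec K χ χ :=
  fun _ _ _ _ h => h

lemma Spec_mod_two (K : Subgroup F) : Spec K th (fun _ => (1 : ZMod 2)) := by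
  intro s n f _ h
  have h1 : ((∑ x ∈ s, n x • th (f x) : ℤ) : ZMod 2) = 0 := by rw [h]; simp
  rw [← h1]
  push_cast
  apply Finset.sum_congr rfl
  intro x _
  rcases th_cases (f x) with hx | hx
  · rw [hx]; simp
  · rw [hx]
    have : ((-1 : ℤ) : ZMod 2) = 1 := by decide
    simp only [zsmul_eq_mul, smul_eq_mul, Int.cast_mul, this]

lemma Ch_th {K : Subgroup F} (h0 : K ≤ KK 0) : Ch K th where
  one := th_one
  mul _ hx _ _ := th_mul (h0 hx).1
  triv _ hw := th_triv (h0 hw)

lemma Knext_le_LL {R : Type*} [AddCommGroup R] (δ : F → R) : Knext δ ≤ LL :=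
  fun _ hw => mem_LL.2 hw.1

lemma KK_zero_le : KK 0 ≤ LL := Knext_le_LL _

lemma KK_props (k : ℕ) : Lv (KK k) ∧ KK k ≤ KK 0 ∧ KK (k + 1) ≤ KK k := by
  induction k with
  | zero =>
    refine ⟨Lv_Knext Lv_LL (Ch_LL _) (Knext_le_LL _), le_rfl, ?_⟩
    intro w hw
    refine ⟨hw.1, fun h hh => ?_⟩
    apply push KK_zero_le (Ch_LL _).mul (Spec_mod_two _)
    intro κ hκ
    apply hw.2
    rw [mem_LL] at hκ
    simp [hκ, hh]
  | succ k ih =>
    obtain ⟨h1, h2, h3⟩ := ih
    refine ⟨Lv_Knext h1 (Ch_th h2) h3, h3.trans h2, ?_⟩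
    intro w hw
    refine ⟨hw.1, fun h hh => ?_⟩
    apply push h3 (Ch_th h2).mul (Spec_refl _ _)
    intro κ hκ
    apply hw.2
    simp [h1.deg0 κ hκ, hh]

lemma KK_Lv (k : ℕ) : Lv (KK k) := (KK_props k).1
lemma KK_le_zero (k : ℕ) : KK k ≤ KK 0 := (KK_props k).2.1
lemma KK_succ_le (k : ℕ) : KK (k + 1) ≤ KK k := (KK_props k).2.2
lemma KK_Ch (k : ℕ) : Ch (KK k) th := Ch_th (KK_le_zero k)

/-- intersection of all the levels -/
def RR (K : Subgroup F) : Subgroup F where
  carrier := {w | ∀ j, inN K j w}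
  mul_mem' hv hw j := inN_mem_mul (hv j) (hw j)
  one_mem' j := by simp [inN, K.one_mem]
  inv_mem' hv j := inN_inv (hv j)

lemma mem_RR {K : Subgroup F} {w : F} : w ∈ RR K ↔ ∀ j, inN K j w := Iff.rfl

lemma mem_RR_Knext {R : Type*} [AddCommGroup R] {δ : F → R} {w : F} :
    w ∈ RR (Knext δ) ↔ dg w = 0 ∧ ∀ h, D δ w h = 0 := by
  rw [mem_RR]
  constructor
  · intro h
    refine ⟨(inN_Knext.1 (h 0)).1, fun g => ?_⟩
    exact (inN_Knext.1 (h (dg g - 1))).2 g (by omega)
  · rintro ⟨h1, h2⟩ j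
    rw [inN_Knext]
    exact ⟨h1, fun g _ => h2 g⟩

lemma comm_RR_le {R : Type*} [CommRing R] {K : Subgroup F} {χ : F → R} (hK : Lv K)
    (hc : Ch K χ) : ⁅RR K, RR K⁆ ≤ RR (Knext (dl K χ)) := by
  rw [Subgroup.commutator_le]
  intro v hv w hw
  rw [mem_RR_Knext]
  have hv0 := inN_deg hK (hv 0)
  have hw0 := inN_deg hK (hw 0)
  refine ⟨by simp [commutatorElement_def], fun h => ?_⟩
  rw [commutatorElement_def, D_comm]
  have h1 : inN K (dg h) (v * w * v⁻¹) := by
    have := inN_conj hK (hw (dg h)) v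
    rwa [hv0, add_zero] at this
  have h2 : inN K (dg h) (v * w * v⁻¹ * w⁻¹) := inN_mem_mul h1 (inN_inv (hw _))
  rw [D_triv hK hc (hv (dg h)) le_rfl, D_triv hK hc h1 le_rfl, D_triv hK hc h2 le_rfl]
  abel

lemma derived_le_RR (k : ℕ) : derivedSeries F (k + 2) ≤ RR (KK k) := by
  induction k with
  | zero =>
    have h1 : derivedSeries F 1 ≤ RR LL := by
      rw [derivedSeries_one, commutator_def, Subgroup.commutator_le]
      intro v _ w _ j
      rw [inN_LL, commutatorElement_def]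
      simp
    rw [zero_add, derivedSeries_succ]
    exact (Subgroup.commutator_mono h1 h1).trans (comm_RR_le Lv_LL (Ch_LL _))
  | succ k ih =>
    rw [show k + 1 + 2 = (k + 2) + 1 by ring, derivedSeries_succ]
    exact (Subgroup.commutator_mono ih ih).trans (comm_RR_le (KK_Lv k) (KK_Ch k))

end Pool.Agent.helper52.OS
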