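import Pool.Agent.helper52.OSTower

/-!
Words in deep derived subgroups with a nontrivial component of level one.
-/

namespace Pool.Agent.helper52.OS

open Finset

lemma fox_gu_pow (n : ℕ) : fox (gu ^ n) = 0 := by
  induction n with
  | zero => simp
  | succ n ih => rw [pow_succ, fox_mul, ih, fox_gu, map_zero, zero_add]

lemma fox_gu_zpow (n : ℤ) : fox (gu ^ n) = 0 := by
  obtain ⟨m, rfl | rfl⟩ := n.eq_nat_or_neg
  · simpa using fox_gu_pow m
  · ext g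
    rw [zpow_neg, fox_inv_apply]
    simp [fox_gu_pow m]

/-- conjugates of the first generator -/
def gen (i : ℤ) : F := gu ^ i * ga * (gu ^ i)⁻¹

@[simp] lemma dg_gen (i : ℤ) : dg (gen i) = 0 := by simp [gen]

lemma gen_conj (i j : ℤ) : gu ^ j * gen i * (gu ^ j)⁻¹ = gen (j + i) := by
  unfold gen
  rw [zpow_add]
  group

lemma D_gen {R : Type*} [AddCommGroup R] (δ : F → R) (i : ℤ) (h : F) :
    D δ (gen i) h = δ ((gu ^ i)⁻¹ * h) := by
  unfold gen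
  rw [D_conj_gu, D_ga]

lemma fox_gen (i : ℤ) (g : F) : fox (gen i) g ≠ 0 → g = gu ^ i := by
  intro h
  unfold gen at h
  rw [fox_mul_apply, fox_mul_apply, fox_gu_zpow, ← zpow_neg, fox_gu_zpow, fox_ga] at h
  simp [Finsupp.single_apply] at h
  have := h
  rw [eq_comm, inv_mul_eq_one] at this
  exact this.symm

/-- elements whose Fox derivative lives in degrees at least `m` -/
def Lge (m : ℤ) : Subgroup F where
  carrier := {w | dg w = 0 ∧ ∀ g, fox w g ≠ 0 → m ≤ dg g}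
  mul_mem' := by
    rintro v w ⟨hv, hv'⟩ ⟨hw, hw'⟩
    refine ⟨by simp [hv, hw], fun g hg => ?_⟩
    rw [fox_mul_apply] at hg
    by_cases h1 : fox v g = 0
    · rw [h1, zero_add] at hg
      have := hw' _ hg
      simpa [hv] using this
    · exact hv' _ h1
  one_mem' := ⟨by simp, fun g h => by simp at h⟩
  inv_mem' := by
    rintro v ⟨hv, hv'⟩
    refine ⟨by simp [hv], fun g hg => ?_⟩
    rw [fox_inv_apply] at hg
    have := hv' (v * g) (by simpa using hg)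
    simpa [hv] using this

lemma mem_Lge {m : ℤ} {w : F} : w ∈ Lge m ↔ dg w = 0 ∧ ∀ g, fox w g ≠ 0 → m ≤ dg g := Iff.rfl

lemma Lge_mono {m m' : ℤ} (h : m ≤ m') {w : F} (hw : w ∈ Lge m') : w ∈ Lge m :=
  ⟨hw.1, fun g hg => h.trans (hw.2 g hg)⟩

lemma gen_mem_Lge {i m : ℤ} (h : m ≤ i) : gen i ∈ Lge m :=
  ⟨by simp, fun g hg => by rw [fox_gen i g hg]; simpa using h⟩

lemma Lge_conj {m : ℤ} {w : F} (hw : w ∈ Lge m) (n : ℤ) :
    gu ^ n * w * (gu ^ n)⁻¹ ∈ Lge (n + m) := by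
  refine ⟨by simp [hw.1], fun g hg => ?_⟩
  rw [fox_mul_apply, fox_mul_apply, fox_gu_zpow, ← zpow_neg, fox_gu_zpow] at hg
  simp only [Finsupp.coe_zero, Pi.zero_apply, zero_add, add_zero] at hg
  have := hw.2 _ hg
  simp at this
  omega

lemma D_of_Lge {R : Type*} [CommRing R] {K : Subgroup F} (hK : Lv K) (χ : F → R) {m : ℤ} {w : F}
    (hw : w ∈ Lge m) {h : F} (hh : dg h < m) : D (dl K χ) w h = 0 := by
  by_contra hne
  obtain ⟨g, hg, hg'⟩ := exists_of_D_ne_zero _ _ _ hne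
  have h1 := hw.2 g (by simpa using hg)
  have h2 : g⁻¹ * h ∈ K := by
    by_contra hcon
    apply hg'
    unfold dl
    rw [if_neg hcon]
  have := hK.deg0 _ h2
  simp at this
  omega

lemma dl_ne_zero {R : Type*} [CommRing R] {K : Subgroup F} {χ : F → R} {h : F}
    (hne : dl K χ h ≠ 0) : h ∈ K := by
  by_contra hcon
  apply hne
  unfold dl
  rw [if_neg hcon]

lemma gen_one_mem (k : ℕ) : gen 1 ∈ KK (k + 1) := by
  refine ⟨by simp, fun h hh => ?_⟩
  rw [D_gen]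
  by_contra hne
  have := (KK_Lv k).deg0 _ (dl_ne_zero hne)
  simp at this
  omega

lemma gen_one_mem' (k : ℕ) : gen 1 ∈ KK k := KK_succ_le k (gen_one_mem k)

lemma D_gen_LL {R : Type*} [CommRing R] (i : ℤ) (h : F) :
    D (dl LL (fun _ => (1 : R))) (gen i) h = if dg h = i then 1 else 0 := by
  rw [D_gen]
  unfold dl
  congr 1
  rw [mem_LL]
  simp
  constructor
  · intro h; omega
  · intro h; omega

lemma cnt_gen (i : ℤ) : cnt (gen i) = if i = 1 then 1 else 0 := by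
  unfold cnt
  rw [D_gen_LL]
  simp [eq_comm]

lemma th_gen_one : th (gen 1) = -1 := by
  unfold th
  rw [cnt_gen]
  simp

/-- property of words -/
def SS (k j : ℕ) : Prop := ∃ w ∈ derivedSeries F j, w ∈ Lge 1 ∧ w ∈ KK (k + 1) ∧
  ∃ h, dg h = 1 ∧ D (dl (KK k) th) w h ≠ 0

lemma D_comm_level {k : ℕ} {g x h : F} (hg : dg g = 0) (hx : x ∈ KK (k + 1)) (hh : dg h = 1) :
    D (dl (KK k) th) (g * x * g⁻¹ * x⁻¹) h
      = D (dl (KK k) th) x (g⁻¹ * h) - D (dl (KK k) th) x h := by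
  have h1 : g * x * g⁻¹ ∈ KK (k + 1) := (KK_Lv (k + 1)).norm g hg x hx
  have h2 : g * x * g⁻¹ * x⁻¹ ∈ KK (k + 1) := Subgroup.mul_mem _ h1 (Subgroup.inv_mem _ hx)
  rw [D_comm, D_triv (KK_Lv k) (KK_Ch k) (inN_one.2 (KK_succ_le k h1)) (by omega),
    D_triv (KK_Lv k) (KK_Ch k) (inN_one.2 (KK_succ_le k h2)) (by omega)]
  abel

lemma comm_mem_KK {k : ℕ} {g x : F} (hg : dg g = 0) (hx : x ∈ KK k) :
    g * x * g⁻¹ * x⁻¹ ∈ KK k :=
  Subgroup.mul_mem _ ((KK_Lv k).norm g hg x hx) (Subgroup.inv_mem _ hx)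

lemma D_gen_one_gu (k : ℕ) : D (dl (KK k) th) (gen 1) gu = 1 := by
  rw [D_gen]
  simp [dl_one (KK_Ch k)]

lemma SS_zero_right (k : ℕ) : SS k 0 := by
  refine ⟨gen 1, by simp, gen_mem_Lge le_rfl, gen_one_mem k, gu, by simp, ?_⟩
  rw [D_gen_one_gu]
  norm_num

lemma comm_mem_derived {j : ℕ} {g x : F} (hg : g ∈ derivedSeries F j)
    (hx : x ∈ derivedSeries F j) : g * x * g⁻¹ * x⁻¹ ∈ derivedSeries F (j + 1) := by
  rw [derivedSeries_succ]
  have := Subgroup.commutator_mem_commutator hg hx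
  rwa [commutatorElement_def] at this

lemma D_x1 (h : F) (hh : dg h = 1) : D (dl (KK 0) th) (gen 2 * gen 1 * (gen 2)⁻¹ * (gen 1)⁻¹) h
    = dl (KK 0) th (gu⁻¹ * (gen 2)⁻¹ * h) - dl (KK 0) th (gu⁻¹ * h) := by
  rw [D_comm_level (by simp) (gen_one_mem 0) hh, D_gen, D_gen]
  simp [mul_assoc]

lemma D_x1_gu : D (dl (KK 0) th) (gen 2 * gen 1 * (gen 2)⁻¹ * (gen 1)⁻¹) gu = -2 := by
  rw [D_x1 gu (by simp)]
  have e : gu⁻¹ * (gen 2)⁻¹ * gu = (gen 1)⁻¹ * 1 := by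
    have := gen_conj 2 (-1)
    have e2 : (-1 + 2 : ℤ) = 1 := by norm_num
    rw [e2] at this
    rw [← this]
    group
  rw [e, dl_mulL (KK_Ch 0) (gen_one_mem' 0), dl_one (KK_Ch 0), th_gen_one]
  simp [dl_one (KK_Ch 0)]

lemma SS_zero_one : SS 0 1 := by
  refine ⟨gen 2 * gen 1 * (gen 2)⁻¹ * (gen 1)⁻¹, comm_mem_derived (by simp) (by simp), ?_,
    comm_mem_KK (by simp) (gen_one_mem 0), gu, by simp, ?_⟩
  · have h1 : gen 1 ∈ Lge 1 := gen_mem_Lge le_rfl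
    have h2 : gen 2 ∈ Lge 1 := gen_mem_Lge (by norm_num)
    exact Subgroup.mul_mem _ (Subgroup.mul_mem _ (Subgroup.mul_mem _ h2 h1)
      (Subgroup.inv_mem _ h2)) (Subgroup.inv_mem _ h1)
  · rw [D_x1_gu]; norm_num

lemma not_mem_KK_zero {w : F} (h : F) (hh : 1 < dg h)
    (hne : D (dl LL (fun _ => (1 : ZMod 2))) w h ≠ 0) : w ∉ KK 0 :=
  fun hw => hne (hw.2 h hh)

lemma SS_zero_two : SS 0 2 := by
  have hg1 : gen 3 * (gen 4)⁻¹ ∈ derivedSeries F 1 := by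
    have h := comm_mem_derived (j := 0) (g := gen 3) (x := gu) (by simp) (by simp)
    have e : gen 3 * gu * (gen 3)⁻¹ * gu⁻¹ = gen 3 * (gen 4)⁻¹ := by
      have := gen_conj 3 1
      have e2 : (1 + 3 : ℤ) = 4 := by norm_num
      rw [e2] at this
      rw [← this]
      group
    rwa [e] at h
  have hx1 := comm_mem_derived (j := 0) (g := gen 2) (x := gen 1) (by simp) (by simp)
  refine ⟨_, comm_mem_derived hg1 hx1, ?_,
    comm_mem_KK (by simp) (comm_mem_KK (by simp) (gen_one_mem 0)), gu, by simp, ?_⟩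
  · have h1 : gen 1 ∈ Lge 1 := gen_mem_Lge le_rfl
    have h2 : gen 2 ∈ Lge 1 := gen_mem_Lge (by norm_num)
    have h3 : gen 3 ∈ Lge 1 := gen_mem_Lge (by norm_num)
    have h4 : gen 4 ∈ Lge 1 := gen_mem_Lge (by norm_num)
    have hx : gen 2 * gen 1 * (gen 2)⁻¹ * (gen 1)⁻¹ ∈ Lge 1 :=
      Subgroup.mul_mem _ (Subgroup.mul_mem _ (Subgroup.mul_mem _ h2 h1)
      (Subgroup.inv_mem _ h2)) (Subgroup.inv_mem _ h1)
    have hg : gen 3 * (gen 4)⁻¹ ∈ Lge 1 := Subgroup.mul_mem _ h3 (Subgroup.inv_mem _ h4)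
    exact Subgroup.mul_mem _ (Subgroup.mul_mem _ (Subgroup.mul_mem _ hg hx)
      (Subgroup.inv_mem _ hg)) (Subgroup.inv_mem _ hx)
  · rw [D_comm_level (by simp) (comm_mem_KK (by simp) (gen_one_mem 0)) (by simp), D_x1_gu,
      D_x1 _ (by simp)]
    have e1 : gu⁻¹ * (gen 2)⁻¹ * ((gen 3 * (gen 4)⁻¹)⁻¹ * gu) = (gen 1)⁻¹ * (gen 3 * (gen 2)⁻¹) := by
      have a1 := gen_conj 2 (-1)
      have a2 := gen_conj 3 (-1)
      have a3 := gen_conj 4 (-1)
      norm_num at a1 a2 a3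
      calc gu⁻¹ * (gen 2)⁻¹ * ((gen 3 * (gen 4)⁻¹)⁻¹ * gu)
          = (gu⁻¹ * gen 2 * gu)⁻¹ * ((gu⁻¹ * gen 4 * gu) * (gu⁻¹ * gen 3 * gu)⁻¹) := by group
        _ = (gen 1)⁻¹ * (gen 3 * (gen 2)⁻¹) := by rw [a1, a2, a3]
    have e2 : gu⁻¹ * ((gen 3 * (gen 4)⁻¹)⁻¹ * gu) = gen 3 * (gen 2)⁻¹ := by
      have a2 := gen_conj 3 (-1)
      have a3 := gen_conj 4 (-1)
      norm_num at a2 a3
      calc gu⁻¹ * ((gen 3 * (gen 4)⁻¹)⁻¹ * gu)
          = (gu⁻¹ * gen 4 * gu) * (gu⁻¹ * gen 3 * gu)⁻¹ := by group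
        _ = gen 3 * (gen 2)⁻¹ := by rw [a2, a3]
    rw [e1, e2, dl_mulL (KK_Ch 0) (gen_one_mem' 0)]
    have h0 : gen 3 * (gen 2)⁻¹ ∉ KK 0 := by
      apply not_mem_KK_zero (gu * gu) (by simp)
      rw [D_mul, D_inv, D_gen_LL, D_gen_LL]
      simp
    have : dl (KK 0) th (gen 3 * (gen 2)⁻¹) = 0 := by
      unfold dl; rw [if_neg h0]
    rw [this]
    norm_num

lemma D_pow_level {R : Type*} [CommRing R] {K : Subgroup F} {χ : F → R} (hK : Lv K)
    (hc : Ch K χ) {j : ℤ} {g h : F} (hg : inN K j g) (hj : j ≤ dg h) (r : ℕ) :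
    D (dl K χ) (g ^ r) h = r • D (dl K χ) g h ∧ inN K j (g ^ r) := by
  induction r with
  | zero => simp [inN, K.one_mem]
  | succ r ih =>
    refine ⟨?_, ?_⟩
    · rw [pow_succ, D_mul, ih.1, D_triv hK hc ih.2 hj, succ_nsmul]
    · rw [pow_succ]; exact inN_mem_mul ih.2 hg

lemma SS_step {k j : ℕ} (h1 : SS (k + 1) j) (h2 : SS k j) : SS (k + 1) (j + 1) := by
  obtain ⟨x, hxj, hxp, hxK, h, hh, hne⟩ := h1
  obtain ⟨y, hyj, hyp, hyK, h0, hh0, hne0⟩ := h2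
  set g : F := gu ^ (2 : ℤ) * y * (gu ^ (2 : ℤ))⁻¹ with hg
  have hgj : g ∈ derivedSeries F j :=
    (derivedSeries_normal F j).conj_mem y hyj _
  have hg0 : dg g = 0 := by
    have := (KK_Lv (k + 1)).deg0 _ hyK
    simp [hg, this]
  have hgp : g ∈ Lge 1 := Lge_mono (by norm_num) (Lge_conj hyp 2)
  by_contra hcon
  -- then `g` fixes the level one part of `x`
  have hfix : ∀ h', dg h' = 1 → D (dl (KK (k + 1)) th) x (g⁻¹ * h')
      = D (dl (KK (k + 1)) th) x h' := by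
    intro h' hh'
    by_contra hne'
    apply hcon
    refine ⟨_, comm_mem_derived hgj hxj, ?_, comm_mem_KK hg0 hxK, h', hh', ?_⟩
    · exact Subgroup.mul_mem _ (Subgroup.mul_mem _ (Subgroup.mul_mem _ hgp hxp)
        (Subgroup.inv_mem _ hgp)) (Subgroup.inv_mem _ hxp)
    · rw [D_comm_level hg0 hxK hh']
      exact sub_ne_zero.2 hne'
  have hfix2 : ∀ m : ℕ, D (dl (KK (k + 1)) th) x ((g ^ m)⁻¹ * h) ≠ 0 := by
    intro m
    induction m with
    | zero => simpa using hne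
    | succ m ih =>
      rw [pow_succ, mul_inv_rev, mul_assoc, hfix _ (by simp [hg0, hh])]
      exact ih
  have hex : ∀ m : ℕ, ∃ q : (fox x).support, (q : F)⁻¹ * ((g ^ m)⁻¹ * h) ∈ KK (k + 1) := by
    intro m
    obtain ⟨q, hq, hq'⟩ := exists_of_D_ne_zero _ _ _ (hfix2 m)
    exact ⟨⟨q, hq⟩, dl_ne_zero hq'⟩
  choose q hq using hex
  obtain ⟨m, m', hmm, hqq⟩ := Finite.exists_ne_map_eq_of_infinite q
  wlog hlt : m < m' generalizing m m' with H
  · exact H m' m hmm.symm hqq.symm (by omega)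
  have h3 := (KK (k + 1)).mul_mem ((KK (k + 1)).inv_mem (hq m')) (hq m)
  rw [hqq] at h3
  have h4 : h⁻¹ * g ^ (m' - m) * h ∈ KK (k + 1) := by
    have e : ((q m' : F)⁻¹ * ((g ^ m')⁻¹ * h))⁻¹ * ((q m' : F)⁻¹ * ((g ^ m)⁻¹ * h))
        = h⁻¹ * g ^ (m' - m) * h := by
      have e1 : g ^ m' = g ^ (m' - m) * g ^ m := by rw [← pow_add]; congr 1; omega
      rw [e1]
      group
    rwa [e] at h3
  have h5 : inN (KK (k + 1)) 2 (g ^ (m' - m)) := by
    have := inN_conj (KK_Lv (k + 1)) (inN_one.2 h4) h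
    rw [hh] at this
    norm_num at this
    have e : h * (h⁻¹ * g ^ (m' - m) * h) * h⁻¹ = g ^ (m' - m) := by group
    rwa [e] at this
  have h6 := (inN_Knext.1 h5).2 (gu ^ (2 : ℤ) * h0) (by simp [hh0])
  have h7 : inN (KK k) 3 g := by
    have := inN_conj (KK_Lv k) (inN_one.2 (KK_succ_le k hyK)) (gu ^ (2 : ℤ))
    norm_num at this
    exact this
  have h8 := (D_pow_level (KK_Lv k) (KK_Ch k) h7 (h := gu ^ (2 : ℤ) * h0) (by simp [hh0])
    (m' - m)).1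
  rw [h8, hg, D_conj_gu] at h6
  simp only [inv_mul_cancel_left, nsmul_eq_mul, mul_eq_zero] at h6
  rcases h6 with h6 | h6
  · have : m' - m ≠ 0 := by omega
    exact this (by exact_mod_cast h6)
  · exact hne0 h6

lemma SS_all (k j : ℕ) (hj : j ≤ k + 2) : SS k j := by
  induction k generalizing j with
  | zero =>
    interval_cases j
    · exact SS_zero_right 0
    · exact SS_zero_one
    · exact SS_zero_two
  | succ k ih =>
    induction j with
    | zero => exact SS_zero_right (k + 1)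
    | succ j ihj => exact SS_step (ihj (by omega)) (ih j (by omega))

end Pool.Agent.helper52.OS
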